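import Mathlib

/-!
# A `T_1` space that is discretely Lindelöf but not Lindelöf

Let `D` be a nonprincipal ultrafilter on `ℕ` and let `(g_a)` be a cofinal well-ordered strictly
increasing family in the ultraproduct of the cardinals `ω_{n+1}` modulo `D`.  The points of the
space are the pairs `(a, S)` with `S ∈ D`; subbasic open sets are the sets `{a ≥ c}` for those
indices `c` below which there is a countable cofinal set, the sets
`{(a, S) : n ∈ S, g_a n ≤ w}`, and the complements of points.  Every initial piece `{a ≤ c}` is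
Lindelöf (induction on `c`), every discrete set is bounded (there are only `ℵ_ω` finite sets of
coordinate conditions, while every family of `ℵ_ω` indices is bounded), and the sets
`{(a, S) : n ∈ S, g_a n ≤ w}` form an open cover without a countable subcover.
-/
open Set Filter Topology

namespace Pool.Agent.Helper39.DLin

universe u

/-- The data from which the space is built. -/
structure Dat where
  Λ : Type
  lin : LinearOrder Λ
  wf : WellFoundedLT Λ
  ne : Nonempty Λ
  W : ℕ → Type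
  linW : ∀ n, LinearOrder (W n)
  g : Λ → ∀ n, W n
  D : Ultrafilter ℕ
  mono : ∀ a b : Λ, a ≤ b → ∀ᶠ n in (D : Filter ℕ), g a n ≤ g b n
  cofinal : ∀ f : ∀ n, W n, ∃ a : Λ, ∀ᶠ n in (D : Filter ℕ), f n ≤ g a n
  bdd : ∀ n, ∀ A : Set (W n), A.Countable → ∃ w, ∀ a ∈ A, a < w
  types : ∀ b : Finset (Σ n, W n) → Λ, ∃ c, ∀ t, b t ≤ c

attribute [instance] Dat.lin Dat.wf Dat.ne Dat.linW

variable (d : Dat)

/-- The underlying set. -/
def Sp : Type := d.Λ × {S : Set ℕ // S ∈ d.D}

variable {d}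

/-- `a` is the least strict upper bound of a countable set. -/
def InC (a : d.Λ) : Prop := ∃ A : Set d.Λ, A.Countable ∧ (∀ x ∈ A, x < a) ∧ ∀ b < a, ∃ x ∈ A, b ≤ x

/-- The condition imposed by a finite set of coordinates. -/
def Cond (t : Finset (Σ n, d.W n)) (y : Sp d) : Prop :=
  ∀ p ∈ t, p.1 ∈ y.2.1 ∧ d.g y.1 p.1 ≤ p.2

/-- `U` contains a basic neighbourhood of `x` (up to finitely many points). -/
def Nb (x : Sp d) (U : Set (Sp d)) : Prop :=
  ∃ a : d.Λ, InC a ∧ a ≤ x.1 ∧ ∃ t : Finset (Σ n, d.W n), Cond t x ∧ ∃ F : Set (Sp d), F.Finite ∧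
    ∀ y : Sp d, a ≤ y.1 → Cond t y → y ∉ F → y ∈ U

lemma exists_min (d : Dat) : ∃ a : d.Λ, InC a ∧ ∀ b, a ≤ b := by
  obtain ⟨a, -, ha⟩ := d.wf.wf.has_min (univ : Set d.Λ) univ_nonempty
  refine ⟨a, ⟨∅, countable_empty, by simp, ?_⟩, fun b => not_lt.1 (ha b (mem_univ b))⟩
  intro b hb
  exact absurd hb (ha b (mem_univ b))

instance : TopologicalSpace (Sp d) where
  IsOpen U := ∀ x ∈ U, Nb x U
  isOpen_univ := by
    intro x _
    obtain ⟨a, ha, hmin⟩ := exists_min d
    exact ⟨a, ha, hmin _, ∅, by simp [Cond], ∅, finite_empty, fun y _ _ _ => mem_univ y⟩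
  isOpen_inter := by
    classical
    rintro U V hU hV x ⟨hxU, hxV⟩
    obtain ⟨a, ha, hax, t, ht, F, hF, h⟩ := hU x hxU
    obtain ⟨b, hb, hbx, s, hs, G, hG, h'⟩ := hV x hxV
    refine ⟨max a b, ?_, max_le hax hbx, t ∪ s, ?_, F ∪ G, hF.union hG, ?_⟩
    · rcases max_choice a b with e | e <;> rw [e] <;> assumption
    · intro p hp
      rcases Finset.mem_union.1 hp with hp | hp
      · exact ht p hp
      · exact hs p hp
    · intro y hy hc hn
      refine ⟨h y ((le_max_left _ _).trans hy) (fun p hp => hc p (Finset.mem_union_left _ hp))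
        (fun h => hn (Or.inl h)), h' y ((le_max_right _ _).trans hy)
        (fun p hp => hc p (Finset.mem_union_right _ hp)) (fun h => hn (Or.inr h))⟩
  isOpen_sUnion := by
    rintro 𝒰 h𝒰 x ⟨U, hU, hx⟩
    obtain ⟨a, ha, hax, t, ht, F, hF, h⟩ := h𝒰 U hU x hx
    exact ⟨a, ha, hax, t, ht, F, hF, fun y h1 h2 h3 => ⟨U, hU, h y h1 h2 h3⟩⟩

lemma isOpen_iff (U : Set (Sp d)) : IsOpen U ↔ ∀ x ∈ U, Nb x U := Iff.rfl

instance : T1Space (Sp d) := by
  constructor
  intro x
  rw [← isOpen_compl_iff, isOpen_iff]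
  intro y _
  obtain ⟨a, ha, hmin⟩ := exists_min d
  exact ⟨a, ha, hmin _, ∅, by simp [Cond], {x}, finite_singleton x, fun z _ _ h => h⟩

lemma isOpen_ge {a : d.Λ} (ha : InC a) : IsOpen {x : Sp d | a ≤ x.1} := by
  rw [isOpen_iff]
  intro x hx
  exact ⟨a, ha, hx, ∅, by simp [Cond], ∅, finite_empty, fun y h _ _ => h⟩

lemma isOpen_coord (n : ℕ) (w : d.W n) : IsOpen {x : Sp d | n ∈ x.2.1 ∧ d.g x.1 n ≤ w} := by
  rw [isOpen_iff]
  intro x hx
  obtain ⟨a, ha, hmin⟩ := exists_min d
  refine ⟨a, ha, hmin _, {⟨n, w⟩}, ?_, ∅, finite_empty, ?_⟩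
  · intro p hp
    rw [Finset.mem_singleton] at hp
    subst hp; exact hx
  · intro y _ h _
    exact h ⟨n, w⟩ (Finset.mem_singleton_self _)

/-- The space is not Lindelöf. -/
lemma not_lindelof : ¬ IsLindelof (univ : Set (Sp d)) := by
  intro hL
  obtain ⟨T, hT, hcov⟩ := hL.elim_countable_subcover
    (fun p : (Σ n, d.W n) => {x : Sp d | p.1 ∈ x.2.1 ∧ d.g x.1 p.1 ≤ p.2})
    (fun p => isOpen_coord p.1 p.2) (by
      intro x _
      obtain ⟨n, hn⟩ : x.2.1.Nonempty := Ultrafilter.nonempty_of_mem x.2.2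
      exact mem_iUnion.2 ⟨⟨n, d.g x.1 n⟩, hn, le_rfl⟩)
  have hb : ∀ n, ∃ w : d.W n, ∀ a : d.W n, (⟨n, a⟩ : Σ n, d.W n) ∈ T → a < w := by
    intro n
    obtain ⟨w, hw⟩ := d.bdd n {a | (⟨n, a⟩ : Σ n, d.W n) ∈ T}
      (hT.preimage (f := fun a : d.W n => (⟨n, a⟩ : Σ n, d.W n)) (sigma_mk_injective))
    exact ⟨w, fun a ha => hw a ha⟩
  choose f hf using hb
  obtain ⟨a, ha⟩ := d.cofinal f
  have hx := hcov (mem_univ ((a, ⟨{n | f n ≤ d.g a n}, ha⟩) : Sp d))
  rw [mem_iUnion₂] at hx
  obtain ⟨⟨n, w⟩, hw, hn, hle⟩ := hx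
  have h1 := hf n w hw
  have h2 : f n ≤ d.g a n := hn
  exact absurd (lt_of_lt_of_le h1 h2) (not_lt.2 hle)

/-- Initial pieces are Lindelöf. -/
lemma lindelof_le (c : d.Λ) : IsLindelof {x : Sp d | x.1 ≤ c} := by
  classical
  induction c using WellFoundedLT.induction with
  | ind c ih =>
  apply isLindelof_of_countable_subcover
  intro ι U hUo hcov
  -- choose a member and a basic neighbourhood for every point of level `c`
  have hpt : ∀ S : {S : Set ℕ // S ∈ d.D}, ∃ i, ((c, S) : Sp d) ∈ U i := by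
    intro S
    exact mem_iUnion.1 (hcov (show ((c, S) : Sp d) ∈ {x : Sp d | x.1 ≤ c} from le_refl c))
  choose i hi using hpt
  have hnb : ∀ S, Nb ((c, S) : Sp d) (U (i S)) := fun S => (hUo (i S)) _ (hi S)
  choose a haC hac t ht F hF hsub using hnb
  let sh : {S : Set ℕ // S ∈ d.D} → Finset ℕ := fun S => (t S).image Sigma.fst
  let Rg : Set (Finset ℕ) := range sh
  have hRg : Rg.Countable := to_countable _
  have hsel : ∀ e : Rg, ∃ S, sh S = e.1 := fun e => e.2
  choose σ hσ using hsel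
  have hRgc : Countable Rg := hRg.to_subtype
  -- leftover part
  have hleft : ∃ Q : Set (Sp d), IsLindelof Q ∧ Q ⊆ {x : Sp d | x.1 ≤ c} ∧
      ∀ y : Sp d, y.1 ≤ c → (∃ e : Rg, y.1 < a (σ e)) → y ∈ Q := by
    by_cases hC : InC c
    · obtain ⟨A, hA, hAlt, hAcof⟩ := hC
      refine ⟨⋃ x ∈ A, {y : Sp d | y.1 ≤ x}, hA.isLindelof_biUnion (fun x hx => ih x (hAlt x hx)),
        ?_, ?_⟩
      · intro y hy
        rw [mem_iUnion₂] at hy
        obtain ⟨x, hx, hyx⟩ := hy
        exact le_of_lt (lt_of_le_of_lt hyx (hAlt x hx))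
      · rintro y _ ⟨e, he⟩
        obtain ⟨x, hx, hyx⟩ := hAcof y.1 (lt_of_lt_of_le he (hac _))
        exact mem_iUnion₂.2 ⟨x, hx, hyx⟩
    · have hlt : ∀ e : Rg, a (σ e) < c := by
        intro e
        refine lt_of_le_of_ne (hac _) (fun h => hC ?_)
        rw [← h]; exact haC _
      have : ∃ b < c, ∀ e : Rg, a (σ e) < b := by
        by_contra hcon
        push Not at hcon
        apply hC
        refine ⟨range (fun e : Rg => a (σ e)), countable_range _, ?_, ?_⟩
        · rintro x ⟨e, rfl⟩; exact hlt e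
        · intro b hb
          obtain ⟨e, he⟩ := hcon b hb
          exact ⟨_, ⟨e, rfl⟩, he⟩
      obtain ⟨b, hb, hbe⟩ := this
      refine ⟨{y : Sp d | y.1 ≤ b}, ih b hb, ?_, ?_⟩
      · intro y hy
        exact le_of_lt (lt_of_le_of_lt hy hb)
      · rintro y _ ⟨e, he⟩
        exact le_of_lt (he.trans (hbe e))
  obtain ⟨Q, hQ, hQsub, hQ'⟩ := hleft
  -- the exceptional countable set
  let Fs : Set (Sp d) := (⋃ e : Rg, F (σ e)) ∩ {x : Sp d | x.1 ≤ c}
  have hFs : Fs.Countable := (countable_iUnion (fun e : Rg => (hF (σ e)).countable)).mono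
    inter_subset_left
  obtain ⟨T₁, hT₁, hT₁c⟩ := hQ.elim_countable_subcover U hUo (hQsub.trans hcov)
  obtain ⟨T₂, hT₂, hT₂c⟩ := hFs.isLindelof.elim_countable_subcover U hUo
    (inter_subset_right.trans hcov)
  refine ⟨T₁ ∪ T₂ ∪ range (fun e : Rg => i (σ e)), (hT₁.union hT₂).union (countable_range _), ?_⟩
  intro y hy
  have hyc : y.1 ≤ c := hy
  -- the relevant set
  have hP : {n | n ∈ y.2.1 ∧ d.g y.1 n ≤ d.g c n} ∈ d.D := by
    have h1 : ∀ᶠ n in (d.D : Filter ℕ), n ∈ y.2.1 := y.2.2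
    exact h1.and (d.mono y.1 c hyc)
  let P : {S : Set ℕ // S ∈ d.D} := ⟨_, hP⟩
  let e : Rg := ⟨sh P, mem_range_self P⟩
  have he : sh (σ e) = sh P := hσ e
  by_cases h1 : y.1 < a (σ e)
  · have := hT₁c (hQ' y hyc ⟨e, h1⟩)
    rw [mem_iUnion₂] at this ⊢
    obtain ⟨j, hj, hyj⟩ := this
    exact ⟨j, Or.inl (Or.inl hj), hyj⟩
  by_cases h2 : y ∈ F (σ e)
  · have := hT₂c (show y ∈ Fs from ⟨mem_iUnion.2 ⟨e, h2⟩, hyc⟩)
    rw [mem_iUnion₂] at this ⊢
    obtain ⟨j, hj, hyj⟩ := this
    exact ⟨j, Or.inl (Or.inr hj), hyj⟩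
  have hcond : Cond (t (σ e)) y := by
    intro p hp
    have hp1 : p.1 ∈ sh (σ e) := Finset.mem_image_of_mem _ hp
    rw [he] at hp1
    obtain ⟨q, hq, hqp⟩ := Finset.mem_image.1 hp1
    have h3 := (ht P q hq).1
    rw [hqp] at h3
    obtain ⟨h4, h5⟩ := h3
    exact ⟨h4, h5.trans (ht (σ e) p hp).2⟩
  have := hsub (σ e) y (not_lt.1 h1) hcond h2
  exact mem_iUnion₂.2 ⟨i (σ e), Or.inr ⟨e, rfl⟩, this⟩

/-- Discrete subsets are bounded. -/
lemma discrete_bdd (A : Set (Sp d)) (hA : DiscreteTopology A) : ∃ c : d.Λ, ∀ x ∈ A, x.1 ≤ c := by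
  classical
  have hiso : ∀ x : A, ∃ V : Set (Sp d), IsOpen V ∧ x.1 ∈ V ∧ ∀ y ∈ A, y ∈ V → y = x.1 := by
    intro x
    have h1 : IsOpen ({x} : Set A) := isOpen_discrete _
    rw [isOpen_induced_iff] at h1
    obtain ⟨V, hV, hVx⟩ := h1
    refine ⟨V, hV, ?_, ?_⟩
    · have : x ∈ (Subtype.val ⁻¹' V : Set A) := by rw [hVx]; exact mem_singleton x
      exact this
    · intro y hy hyV
      have : (⟨y, hy⟩ : A) ∈ (Subtype.val ⁻¹' V : Set A) := hyV
      rw [hVx] at this
      exact congrArg Subtype.val this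
  choose V hVo hVx hVu using hiso
  have hnb : ∀ x : A, Nb x.1 (V x) := fun x => (hVo x) _ (hVx x)
  choose a haC hax t ht F hF hsub using hnb
  have hb : ∀ s : Finset (Σ n, d.W n), ∃ b : d.Λ, ∀ x : A, t x = s → x.1.1 ≤ b := by
    intro s
    by_cases hex : ∃ x : A, t x = s
    · obtain ⟨x, hx⟩ := hex
      have hfin : (insert x.1.1 (Prod.fst '' F x)).Finite := ((hF x).image _).insert _
      obtain ⟨b, hb⟩ := hfin.bddAbove
      refine ⟨b, ?_⟩
      intro y hy
      rcases le_total y.1.1 x.1.1 with hle | hle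
      · exact hle.trans (hb (mem_insert _ _))
      · by_cases hyF : y.1 ∈ F x
        · exact hb (mem_insert_of_mem _ ⟨y.1, hyF, rfl⟩)
        · have hyV : y.1 ∈ V x := by
            refine hsub x y.1 ((hax x).trans hle) ?_ hyF
            rw [hx, ← hy]; exact ht y
          have := hVu x y.1 y.2 hyV
          rw [this]
          exact hb (mem_insert _ _)
    · obtain ⟨b⟩ := d.ne
      refine ⟨b, fun x hx => absurd ⟨x, hx⟩ hex⟩
  choose b hb using hb
  obtain ⟨c, hc⟩ := d.types b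
  exact ⟨c, fun x hx => (hb _ ⟨x, hx⟩ rfl).trans (hc _)⟩

/-- Every discrete subset has a Lindelöf closure. -/
lemma discretelyLindelof (A : Set (Sp d)) (hA : DiscreteTopology A) : IsLindelof (closure A) := by
  obtain ⟨c, hc⟩ := discrete_bdd A hA
  refine (lindelof_le c).of_isClosed_subset isClosed_closure ?_
  refine closure_minimal (fun x hx => hc x hx) ?_
  by_cases hmax : ∃ b, c < b
  · obtain ⟨b, hb, hbmin⟩ := d.wf.wf.has_min {b | c < b} hmax
    have hbC : InC b := by
      refine ⟨{c}, countable_singleton c, ?_, ?_⟩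
      · intro x hx; rw [mem_singleton_iff.1 hx]; exact hb
      · intro x hx
        exact ⟨c, mem_singleton c, not_lt.1 (fun h => hbmin x h hx)⟩
    have : {x : Sp d | x.1 ≤ c} = {x : Sp d | b ≤ x.1}ᶜ := by
      ext x
      constructor
      · intro (hx : x.1 ≤ c) (h : b ≤ x.1)
        exact absurd (hb.trans_le h) (not_lt.2 hx)
      · intro hx
        by_contra hcon
        apply hx
        show b ≤ x.1
        by_contra h
        exact hbmin x.1 (not_le.1 hcon) (not_le.1 h)
    rw [this]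
    exact (isOpen_ge hbC).isClosed_compl
  · push Not at hmax
    have : {x : Sp d | x.1 ≤ c} = univ := eq_univ_of_forall (fun x => hmax x.1)
    rw [this]; exact isClosed_univ


section construction

open Cardinal Ordinal

/-- The well-ordered coordinate space of type `ω_{n+1}`. -/
def Wt (n : ℕ) : Type := (Cardinal.aleph.{0} ((n : Ordinal.{0}) + 1)).ord.ToType

noncomputable instance (n : ℕ) : LinearOrder (Wt n) := inferInstanceAs (LinearOrder (Ordinal.ToType _))
instance (n : ℕ) : WellFoundedLT (Wt n) := inferInstanceAs (WellFoundedLT (Ordinal.ToType _))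

lemma reg (n : ℕ) : (Cardinal.aleph.{0} ((n : Ordinal.{0}) + 1)).IsRegular :=
  Cardinal.isRegular_aleph_add_one _

lemma mk_Wt (n : ℕ) : #(Wt n) = Cardinal.aleph ((n : Ordinal.{0}) + 1) := by
  show #((Cardinal.aleph.{0} ((n : Ordinal.{0}) + 1)).ord.ToType) = _
  rw [Cardinal.mk_toType, Cardinal.card_ord]

lemma sb (n : ℕ) (A : Set (Wt n)) (hA : #A < Cardinal.aleph ((n : Ordinal.{0}) + 1)) :
    ∃ w, ∀ a ∈ A, a < w := by
  rw [← not_isCofinal_iff]
  intro h
  have h1 := Order.cof_le h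
  have h2 : Order.cof (Wt n) = Cardinal.aleph ((n : Ordinal.{0}) + 1) := by
    show Order.cof ((Cardinal.aleph.{0} ((n : Ordinal.{0}) + 1)).ord.ToType) = _
    rw [Ordinal.cof_toType, (reg n).cof_ord]
  rw [h2] at h1
  exact absurd hA (not_lt.2 h1)

lemma sb_countable (n : ℕ) (A : Set (Wt n)) (hA : A.Countable) : ∃ w, ∀ a ∈ A, a < w := by
  apply sb
  have h1 : #A ≤ ℵ₀ := Cardinal.le_aleph0_iff_set_countable.2 hA
  refine lt_of_le_of_lt h1 ?_
  rw [← Cardinal.aleph_zero, Cardinal.aleph_lt_aleph]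
  exact lt_of_le_of_lt zero_le (lt_add_one _)

instance (n : ℕ) : Nonempty (Wt n) := ⟨(sb_countable n ∅ countable_empty).choose⟩

lemma mk_small (n : ℕ) : #{p : (Σ m, Wt m) | p.1 < n} < Cardinal.aleph ((n : Ordinal.{0}) + 1) := by
  have h1 : {p : (Σ m, Wt m) | p.1 < n} = ⋃ i : Fin n, range (Sigma.mk (β := Wt) i.1) := by
    ext ⟨m, w⟩
    simp only [mem_ofPred_eq, mem_iUnion, mem_range]
    constructor
    · intro h
      exact ⟨⟨m, h⟩, w, rfl⟩
    · rintro ⟨i, w', h⟩
      have : i.1 = m := congrArg Sigma.fst h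
      rw [← this]; exact i.2
  rw [h1, Cardinal.card_iUnion_lt_iff_forall_of_isRegular (reg n)]
  · intro i
    refine lt_of_le_of_lt mk_range_le ?_
    rw [mk_Wt, Cardinal.aleph_lt_aleph]
    exact_mod_cast Nat.add_lt_add_right i.2 1
  · rw [Cardinal.mk_fin]
    exact (reg n).nat_lt n

lemma mk_small_finset (n : ℕ) : #(Finset {p : (Σ m, Wt m) | p.1 < n}) <
    Cardinal.aleph ((n : Ordinal.{0}) + 1) := by
  rcases finite_or_infinite {p : (Σ m, Wt m) | p.1 < n} with h | h
  · exact lt_of_lt_of_le (Cardinal.lt_aleph0_of_finite _) (reg n).aleph0_le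
  · rw [Cardinal.mk_finset_of_infinite]; exact mk_small n

/-- Families indexed by finite sets of coordinates are bounded modulo the ultrafilter. -/
lemma types_bdd (b : Finset (Σ m, Wt m) → ∀ n, Wt n) :
    ∃ f : ∀ n, Wt n, ∀ t, ∀ᶠ n in (hyperfilter ℕ : Filter ℕ), b t n < f n := by
  classical
  have h : ∀ n, ∃ w : Wt n, ∀ t : Finset {p : (Σ m, Wt m) | p.1 < n},
      b (t.map (Function.Embedding.subtype _)) n < w := by
    intro n
    obtain ⟨w, hw⟩ := sb n (range (fun t : Finset {p : (Σ m, Wt m) | p.1 < n} =>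
      b (t.map (Function.Embedding.subtype _)) n)) (lt_of_le_of_lt mk_range_le (mk_small_finset n))
    exact ⟨w, fun t => hw _ ⟨t, rfl⟩⟩
  choose f hf using h
  refine ⟨f, fun t => ?_⟩
  apply Nat.hyperfilter_le_atTop
  have hN : ∃ N : ℕ, ∀ p ∈ t, p.1 < N := by
    obtain ⟨N, hN⟩ := (t.image Sigma.fst).bddAbove
    exact ⟨N + 1, fun p hp => Nat.lt_succ_of_le (hN (Finset.mem_coe.2 (Finset.mem_image_of_mem _ hp)))⟩
  obtain ⟨N, hN⟩ := hN
  filter_upwards [eventually_ge_atTop N] with n hn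
  have hmem : ∀ p ∈ t, p ∈ {p : (Σ m, Wt m) | p.1 < n} := fun p hp => lt_of_lt_of_le (hN p hp) hn
  have := hf n (t.subtype (· ∈ {p : (Σ m, Wt m) | p.1 < n}))
  have e : (t.subtype (· ∈ {p : (Σ m, Wt m) | p.1 < n})).map (Function.Embedding.subtype _) = t := by
    rw [Finset.subtype_map]
    exact Finset.filter_true_of_mem hmem
  rw [e] at this
  exact this

/-- The records of a well-ordering of the product: a cofinal well-ordered family. -/
structure Lam where
  f : ∀ n, Wt n
  rec' : ∀ h : (∀ n, Wt n), WellOrderingRel h f → ∀ᶠ n in (hyperfilter ℕ : Filter ℕ), h n < f n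

/-- The well-order on the index set. -/
def lr (a b : Lam) : Prop := WellOrderingRel a.f b.f

lemma Lam.ext' {a b : Lam} (h : a.f = b.f) : a = b := by
  cases a; cases b; cases h; rfl

instance : IsWellOrder Lam lr :=
  (RelEmbedding.preimage ⟨Lam.f, fun _ _ h => Lam.ext' h⟩ WellOrderingRel).isWellOrder

noncomputable instance : LinearOrder Lam := by
  classical
  exact linearOrderOfSTO lr

lemma lam_lt {a b : Lam} : a < b ↔ lr a b := Iff.rfl

instance : WellFoundedLT Lam := ⟨(inferInstance : IsWellOrder Lam lr).wf⟩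

lemma lam_cofinal (f : ∀ n, Wt n) : ∃ a : Lam, ∀ᶠ n in (hyperfilter ℕ : Filter ℕ), f n ≤ a.f n := by
  obtain ⟨h, hh, hmin⟩ := (inferInstance : IsWellOrder (∀ n, Wt n) WellOrderingRel).wf.has_min
    {h | ∀ᶠ n in (hyperfilter ℕ : Filter ℕ), f n ≤ h n} ⟨f, Eventually.of_forall (fun n => le_rfl)⟩
  refine ⟨⟨h, ?_⟩, hh⟩
  intro h' hr
  have h1 : ¬ ∀ᶠ n in (hyperfilter ℕ : Filter ℕ), f n ≤ h' n := fun hc => hmin h' hc hr
  rw [← Ultrafilter.eventually_not] at h1
  have h2 : ∀ᶠ n in (hyperfilter ℕ : Filter ℕ), f n ≤ h n := hh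
  filter_upwards [h1, h2] with n h3 h4
  exact lt_of_lt_of_le (not_le.1 h3) h4

/-- The concrete data. -/
noncomputable def dat : Dat where
  Λ := Lam
  lin := inferInstance
  wf := inferInstance
  ne := ⟨(lam_cofinal (fun _ => Classical.arbitrary _)).choose⟩
  W := Wt
  linW := inferInstance
  g := Lam.f
  D := hyperfilter ℕ
  mono := by
    intro a b hab
    rcases eq_or_lt_of_le hab with rfl | h
    · exact Eventually.of_forall (fun n => le_rfl)
    · exact (b.rec' a.f (lam_lt.1 h)).mono (fun n hn => hn.le)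
  cofinal := lam_cofinal
  bdd := sb_countable
  types := by
    intro b
    obtain ⟨f, hf⟩ := types_bdd (fun t => (b t).f)
    obtain ⟨c, hc⟩ := lam_cofinal f
    refine ⟨c, fun t => ?_⟩
    by_contra hcon
    have h1 := (b t).rec' c.f (lam_lt.1 (not_le.1 hcon))
    obtain ⟨n, h2, h3, h4⟩ := (h1.and ((hf t).and hc)).exists
    exact absurd (h2.trans h3) (not_lt.2 h4)

end construction

section product

/-- The closure of every discrete subset is Lindelöf. -/
def DiscretelyLindelof (X : Type u) [TopologicalSpace X] : Prop :=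
  ∀ D : Set X, DiscreteTopology D → IsLindelof (closure D)

/-- A copy of `X` carrying the discrete topology. -/
def Disc (X : Type u) : Type u := X

instance (X : Type u) : TopologicalSpace (Disc X) := ⊥
instance (X : Type u) : DiscreteTopology (Disc X) := ⟨rfl⟩

/-- The identity as a map to the discrete copy. -/
def toDisc {X : Type u} (x : X) : Disc X := x

lemma toDisc_inj {X : Type u} {x y : X} (h : toDisc x = toDisc y) : x = y := h

lemma lindelof_of_prod (X : Type u) [TopologicalSpace X]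
    (h : DiscretelyLindelof (X × OnePoint (Disc X))) : IsLindelof (univ : Set X) := by
  let φ : X → X × OnePoint (Disc X) := fun x => (x, OnePoint.some (toDisc x))
  have hd : DiscreteTopology (range φ) := by
    rw [discreteTopology_subtype_iff']
    rintro _ ⟨x, rfl⟩
    refine ⟨Prod.snd ⁻¹' ((OnePoint.some : Disc X → OnePoint (Disc X)) '' {toDisc x}), ?_, ?_⟩
    · exact (OnePoint.isOpenEmbedding_coe.isOpenMap _ (isOpen_discrete _)).preimage continuous_snd
    · ext ⟨y, k⟩
      constructor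
      · rintro ⟨⟨z, hz, hzk⟩, ⟨w, hw⟩⟩
        rw [mem_singleton_iff] at hz
        rw [hz] at hzk
        simp only [φ, Prod.mk.injEq] at hw
        obtain ⟨h1, h2⟩ := hw
        have h3 : (OnePoint.some (toDisc w) : OnePoint (Disc X)) = OnePoint.some (toDisc x) := by
          rw [h2]; exact hzk.symm
        have h4 : w = x := toDisc_inj (OnePoint.coe_injective h3)
        rw [mem_singleton_iff, ← h1, ← h2, h4]
      · intro hxy
        rw [mem_singleton_iff] at hxy
        rw [hxy]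
        exact ⟨⟨x, rfl, rfl⟩, ⟨x, rfl⟩⟩
  have h1 := (h _ hd).image continuous_fst
  have h2 : Prod.fst '' closure (range φ) = univ := by
    apply eq_univ_of_forall
    intro x
    exact ⟨φ x, subset_closure ⟨x, rfl⟩, rfl⟩
  rw [h2] at h1
  exact h1

lemma prod_lindelof (X K : Type u) [TopologicalSpace X] [TopologicalSpace K] [CompactSpace K]
    (h : IsLindelof (univ : Set X)) : IsLindelof (univ : Set (X × K)) := by
  classical
  apply isLindelof_of_countable_subcover
  intro ι U hUo hcov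
  have hx : ∀ x : X, ∃ T : Finset ι, ∃ V : Set X, IsOpen V ∧ x ∈ V ∧
      V ×ˢ (univ : Set K) ⊆ ⋃ i ∈ T, U i := by
    intro x
    have hc : IsCompact (({x} : Set X) ×ˢ (univ : Set K)) := isCompact_singleton.prod isCompact_univ
    obtain ⟨T, hT⟩ := hc.elim_finite_subcover U hUo (fun p _ => hcov (mem_univ p))
    obtain ⟨V, W, hV, hW, hxV, hKW, hVW⟩ := generalized_tube_lemma isCompact_singleton
      isCompact_univ (isOpen_biUnion (fun i _ => hUo i) : IsOpen (⋃ i ∈ T, U i)) hT
    refine ⟨T, V, hV, hxV (mem_singleton x), ?_⟩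
    rintro ⟨a, b⟩ ⟨ha, _⟩
    exact hVW ⟨ha, hKW (mem_univ b)⟩
  choose T V hVo hxV hsub using hx
  obtain ⟨A, hA, hAc⟩ := h.elim_countable_subcover V hVo (fun x _ => mem_iUnion.2 ⟨x, hxV x⟩)
  refine ⟨⋃ x ∈ A, (T x : Set ι), hA.biUnion (fun x _ => (T x).countable_toSet), ?_⟩
  rintro ⟨x, k⟩ _
  have h1 := hAc (mem_univ x)
  rw [mem_iUnion₂] at h1
  obtain ⟨a, ha, hxa⟩ := h1
  have h2 := hsub a (show (x, k) ∈ V a ×ˢ (univ : Set K) from ⟨hxa, mem_univ k⟩)
  rw [mem_iUnion₂] at h2 ⊢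
  obtain ⟨i, hi, hxi⟩ := h2
  exact ⟨i, mem_iUnion₂.2 ⟨a, ha, hi⟩, hxi⟩

theorem forall_compact_iff (X : Type u) [TopologicalSpace X] :
    (∀ (K : Type u) [TopologicalSpace K] [CompactSpace K] [T2Space K],
      DiscretelyLindelof (X × K)) ↔ LindelofSpace X := by
  constructor
  · intro h
    exact isLindelof_univ_iff.1 (lindelof_of_prod X (h (OnePoint (Disc X))))
  · intro h K _ _ _ D _
    have h1 := prod_lindelof X K (isLindelof_univ_iff.2 h)
    exact h1.of_isClosed_subset isClosed_closure (subset_univ _)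

theorem counterexample : ∃ (X K : Type) (_ : TopologicalSpace X) (_ : TopologicalSpace K),
    T1Space X ∧ DiscretelyLindelof X ∧ CompactSpace K ∧ T2Space K ∧
      ¬ DiscretelyLindelof (X × K) := by
  refine ⟨Sp dat, OnePoint (Disc (Sp dat)), inferInstance, inferInstance, inferInstance,
    discretelyLindelof, inferInstance, inferInstance, ?_⟩
  intro h
  exact not_lindelof (lindelof_of_prod _ h)

theorem exists_not_lindelof : ∃ (X : Type) (_ : TopologicalSpace X),
    T1Space X ∧ DiscretelyLindelof X ∧ ¬ LindelofSpace X :=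
  ⟨Sp dat, inferInstance, inferInstance, discretelyLindelof,
    fun h => not_lindelof (isLindelof_univ_iff.2 h)⟩

end product

end Pool.Agent.Helper39.DLin
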