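import Mathlib

/-!
# Projections of `l_p` balls: monotonicity of the normalised volume in `p`

Write `N(x)` for the infimum over all lifts `y` of `x` of the sum of the level costs
`(Gamma(1+1/p) |y_i|) ^ p`.  The normalised volume of the projection of the `l_p` ball is (up to a
constant) the integral over levels `z > 0`, with weight `exp (-z)`, of the volume of `{N ≤ z}`.
The exponent is changed in one coordinate at a time.  On every line in the direction of the
corresponding vector the right end point of the sublevel set at level `z` is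
`max (r (z - b) + δ b)` with `r` concave, and the largest optimal `b = b z` is monotone and
`1`-Lipschitz in `z`.  For such a function `b` the quantity `E[b(Z) ^ s] / Gamma (1 + s)`, with `Z`
standard exponential, is non-increasing in `s`; this is a single crossing argument for Gamma
densities.
-/
open MeasureTheory Set Filter
open scoped ENNReal NNReal Topology Pointwise

namespace Pool.Agent.Helper39.LpProj

/-- The exponential probability measure on the real line. -/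
noncomputable def expM : Measure ℝ :=
  (volume.restrict (Ioi (0:ℝ))).withDensity (fun z => ENNReal.ofReal (Real.exp (-z)))

lemma lintegral_gamma {σ : ℝ} (hσ : 0 < σ) :
    ∫⁻ t in Ioi (0:ℝ), ENNReal.ofReal (t ^ (σ - 1) * Real.exp (-t)) =
      ENNReal.ofReal (Real.Gamma σ) := by
  rw [Real.Gamma_eq_integral hσ]
  have hint := Real.GammaIntegral_convergent hσ
  have hint' : IntegrableOn (fun t : ℝ => t ^ (σ - 1) * Real.exp (-t)) (Ioi 0) := by
    refine hint.congr_fun (fun t _ => by ring) measurableSet_Ioi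
  rw [← ofReal_integral_eq_lintegral_ofReal hint']
  · congr 1
    refine setIntegral_congr_fun measurableSet_Ioi (fun t _ => by ring)
  · refine (ae_restrict_mem measurableSet_Ioi).mono (fun t ht => ?_)
    have : (0:ℝ) < t := ht
    positivity

/-- Abstract single crossing inequality. -/
lemma cross_lintegral {μ : Measure ℝ} (w₁ w₂ h : ℝ → ℝ≥0∞) (hw₁ : Measurable w₁)
    (hw₂ : Measurable w₂) (c : ℝ≥0∞) (hc : c ≠ ∞)
    (hfin : ∫⁻ t, w₂ t ∂μ ≠ ∞)
    (heq : ∫⁻ t, w₁ t ∂μ = ∫⁻ t, w₂ t ∂μ)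
    (hcross : ∀ᵐ t ∂μ, (w₁ t ≤ w₂ t ∧ c ≤ h t) ∨ (w₂ t ≤ w₁ t ∧ h t ≤ c)) :
    ∫⁻ t, h t * w₁ t ∂μ ≤ ∫⁻ t, h t * w₂ t ∂μ := by
  have key : ∀ᵐ t ∂μ, h t * w₁ t + c * w₂ t ≤ h t * w₂ t + c * w₁ t := by
    filter_upwards [hcross] with t ht
    rcases ht with ⟨h1, h2⟩ | ⟨h1, h2⟩
    · obtain ⟨d, hd⟩ := exists_add_of_le h1
      rw [hd]
      calc h t * w₁ t + c * (w₁ t + d) = (h t * w₁ t + c * w₁ t) + c * d := by ring
        _ ≤ (h t * w₁ t + c * w₁ t) + h t * d := by gcongr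
        _ = h t * (w₁ t + d) + c * w₁ t := by ring
    · obtain ⟨d, hd⟩ := exists_add_of_le h1
      rw [hd]
      calc h t * (w₂ t + d) + c * w₂ t = (h t * w₂ t + c * w₂ t) + h t * d := by ring
        _ ≤ (h t * w₂ t + c * w₂ t) + c * d := by gcongr
        _ = h t * w₂ t + c * (w₂ t + d) := by ring
  have hint := lintegral_mono_ae key
  rw [lintegral_add_right _ (hw₂.const_mul c), lintegral_add_right _ (hw₁.const_mul c),
    lintegral_const_mul _ hw₂, lintegral_const_mul _ hw₁, heq] at hint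
  exact (ENNReal.add_le_add_iff_right (ENNReal.mul_ne_top hc hfin)).1 hint

lemma gamma_cross {σ₁ σ₂ : ℝ} (h2 : 0 < σ₂) (h12 : σ₂ ≤ σ₁) (h : ℝ → ℝ≥0∞)
    (hanti : ∀ s t, 0 < s → s ≤ t → h t ≤ h s) (hfin : ∀ t, 0 < t → h t ≠ ∞) :
    ENNReal.ofReal (1 / Real.Gamma σ₁) *
        ∫⁻ t in Ioi (0:ℝ), h t * ENNReal.ofReal (t ^ (σ₁ - 1) * Real.exp (-t)) ≤
      ENNReal.ofReal (1 / Real.Gamma σ₂) *
        ∫⁻ t in Ioi (0:ℝ), h t * ENNReal.ofReal (t ^ (σ₂ - 1) * Real.exp (-t)) := by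
  rcases eq_or_lt_of_le h12 with rfl | hlt
  · exact le_rfl
  have h1 : 0 < σ₁ := h2.trans hlt
  have G1 := Real.Gamma_pos_of_pos h1
  have G2 := Real.Gamma_pos_of_pos h2
  set w : ℝ → ℝ → ℝ≥0∞ := fun σ t =>
    ENNReal.ofReal (1 / Real.Gamma σ) * ENNReal.ofReal (t ^ (σ - 1) * Real.exp (-t)) with hw
  have hmw : ∀ σ : ℝ, Measurable (fun t : ℝ => ENNReal.ofReal (t ^ (σ - 1) * Real.exp (-t))) := by
    intro σ; fun_prop
  have hmw' : ∀ σ : ℝ, Measurable (w σ) := fun σ => (hmw σ).const_mul _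
  have tot : ∀ σ : ℝ, 0 < σ → ∫⁻ t in Ioi (0:ℝ), w σ t = 1 := by
    intro σ hσ
    have G := Real.Gamma_pos_of_pos hσ
    rw [lintegral_const_mul _ (hmw σ), lintegral_gamma hσ, ← ENNReal.ofReal_mul (by positivity)]
    rw [one_div, inv_mul_cancel₀ G.ne', ENNReal.ofReal_one]
  set t₀ : ℝ := (Real.Gamma σ₁ / Real.Gamma σ₂) ^ (1 / (σ₁ - σ₂)) with ht₀
  have ht₀pos : 0 < t₀ := by positivity
  have hd : 0 < σ₁ - σ₂ := by linarith
  have ht₀pow : t₀ ^ (σ₁ - σ₂) = Real.Gamma σ₁ / Real.Gamma σ₂ := by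
    rw [ht₀, ← Real.rpow_mul (by positivity), one_div, inv_mul_cancel₀ hd.ne', Real.rpow_one]
  have split : ∀ t : ℝ, 0 < t → t ^ (σ₁ - 1) = t ^ (σ₁ - σ₂) * t ^ (σ₂ - 1) := by
    intro t ht
    rw [← Real.rpow_add ht]; congr 1; ring
  have main := cross_lintegral (μ := volume.restrict (Ioi (0:ℝ))) (w σ₁) (w σ₂) h (hmw' σ₁)
    (hmw' σ₂) (h t₀) (hfin t₀ ht₀pos) (by rw [tot σ₂ h2]; exact ENNReal.one_ne_top)
    (by rw [tot σ₁ h1, tot σ₂ h2]) ?_
  · have e : ∀ σ : ℝ, ∫⁻ t in Ioi (0:ℝ), h t * w σ t = ENNReal.ofReal (1 / Real.Gamma σ) *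
        ∫⁻ t in Ioi (0:ℝ), h t * ENNReal.ofReal (t ^ (σ - 1) * Real.exp (-t)) := by
      intro σ
      rw [← lintegral_const_mul']
      · refine lintegral_congr (fun t => ?_)
        simp only [hw]; ring
      · exact ENNReal.ofReal_ne_top
    rw [e, e] at main
    exact main
  · refine (ae_restrict_mem measurableSet_Ioi).mono (fun t ht => ?_)
    have ht' : (0:ℝ) < t := ht
    have hpos : 0 < t ^ (σ₂ - 1) * Real.exp (-t) := by positivity
    rcases le_total t t₀ with hle | hle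
    · left
      refine ⟨?_, hanti t t₀ ht' hle⟩
      simp only [hw]
      rw [← ENNReal.ofReal_mul (by positivity), ← ENNReal.ofReal_mul (by positivity)]
      apply ENNReal.ofReal_le_ofReal
      have : t ^ (σ₁ - σ₂) ≤ Real.Gamma σ₁ / Real.Gamma σ₂ := by
        rw [← ht₀pow]; exact Real.rpow_le_rpow ht'.le hle hd.le
      rw [split t ht']
      calc 1 / Real.Gamma σ₁ * (t ^ (σ₁ - σ₂) * t ^ (σ₂ - 1) * Real.exp (-t))
          = (t ^ (σ₂ - 1) * Real.exp (-t)) * (t ^ (σ₁ - σ₂) / Real.Gamma σ₁) := by ring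
        _ ≤ (t ^ (σ₂ - 1) * Real.exp (-t)) * ((Real.Gamma σ₁ / Real.Gamma σ₂) / Real.Gamma σ₁) := by
            gcongr
        _ = 1 / Real.Gamma σ₂ * (t ^ (σ₂ - 1) * Real.exp (-t)) := by
            field_simp
    · right
      refine ⟨?_, hanti t₀ t ht₀pos hle⟩
      simp only [hw]
      rw [← ENNReal.ofReal_mul (by positivity), ← ENNReal.ofReal_mul (by positivity)]
      apply ENNReal.ofReal_le_ofReal
      have : Real.Gamma σ₁ / Real.Gamma σ₂ ≤ t ^ (σ₁ - σ₂) := by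
        rw [← ht₀pow]; exact Real.rpow_le_rpow ht₀pos.le hle hd.le
      rw [split t ht']
      calc 1 / Real.Gamma σ₂ * (t ^ (σ₂ - 1) * Real.exp (-t))
          = (t ^ (σ₂ - 1) * Real.exp (-t)) * ((Real.Gamma σ₁ / Real.Gamma σ₂) / Real.Gamma σ₁) := by
            field_simp
        _ ≤ (t ^ (σ₂ - 1) * Real.exp (-t)) * (t ^ (σ₁ - σ₂) / Real.Gamma σ₁) := by gcongr
        _ = 1 / Real.Gamma σ₁ * (t ^ (σ₁ - σ₂) * t ^ (σ₂ - 1) * Real.exp (-t)) := by ring


/-- Normalised power function. -/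
noncomputable def dl (σ b : ℝ) : ℝ := b ^ σ / Real.Gamma (σ + 1)

lemma expM_apply {A : Set ℝ} (hA : MeasurableSet A) (hA0 : A ⊆ Ioi 0) :
    expM A = ∫⁻ z, A.indicator (fun z => ENNReal.ofReal (Real.exp (-z))) z := by
  rw [expM, withDensity_apply _ hA, Measure.restrict_restrict hA,
    inter_eq_self_of_subset_left hA0, lintegral_indicator hA]

instance : IsProbabilityMeasure expM := by
  constructor
  rw [expM, withDensity_apply _ MeasurableSet.univ, Measure.restrict_univ]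
  have := lintegral_gamma (σ := 1) one_pos
  simpa using this

lemma beta_cross {σ₁ σ₂ : ℝ} (h2 : 0 < σ₂) (h12 : σ₂ ≤ σ₁) (β : ℝ → ℝ) (hmono : Monotone β)
    (hlip : ∀ x y, x ≤ y → β y - β x ≤ y - x) (h0 : ∀ x ≤ 0, β x = 0) :
    ∫⁻ z, ENNReal.ofReal (dl σ₁ (β z)) ∂expM ≤ ∫⁻ z, ENNReal.ofReal (dl σ₂ (β z)) ∂expM := by
  have h1 : 0 < σ₁ := lt_of_lt_of_le h2 h12
  have hβ0 : ∀ z, 0 ≤ β z := by
    intro z
    rcases le_total z 0 with hz | hz
    · rw [h0 z hz]
    · have := hmono hz; rw [h0 0 le_rfl] at this; exact this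
  set h : ℝ → ℝ≥0∞ := fun t => ENNReal.ofReal (Real.exp t) * expM {a | t < β a} with hh
  have hmeas : ∀ t, MeasurableSet {a | t < β a} := fun t =>
    measurableSet_lt measurable_const hmono.measurable
  have hsub : ∀ t, 0 ≤ t → {a | t < β a} ⊆ Ioi 0 := by
    intro t ht a ha
    by_contra hcon
    have : a ≤ 0 := not_lt.1 hcon
    have h3 := h0 a this
    have h4 : t < β a := ha
    linarith
  have hanti : ∀ s t, 0 < s → s ≤ t → h t ≤ h s := by
    intro s t hs hst
    simp only [hh]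
    rw [expM_apply (hmeas t) (hsub t (hs.le.trans hst)), expM_apply (hmeas s) (hsub s hs.le)]
    have step : ∫⁻ z, ({a | t < β a}).indicator (fun z => ENNReal.ofReal (Real.exp (-z))) z ≤
        ENNReal.ofReal (Real.exp (-(t - s))) *
          ∫⁻ z, ({a | s < β a}).indicator (fun z => ENNReal.ofReal (Real.exp (-z))) z := by
      rw [← lintegral_sub_right_eq_self (fun z => ({a | s < β a}).indicator
        (fun z => ENNReal.ofReal (Real.exp (-z))) z) (t - s), ← lintegral_const_mul']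
      · refine lintegral_mono (fun a => ?_)
        by_cases ha : t < β a
        · have hs' : s < β (a - (t - s)) := by
            have := hlip (a - (t - s)) a (by linarith)
            linarith
          rw [indicator_of_mem (show a ∈ {a | t < β a} from ha),
            indicator_of_mem (show a - (t - s) ∈ {a | s < β a} from hs'),
            ← ENNReal.ofReal_mul (Real.exp_pos _).le, ← Real.exp_add]
          apply le_of_eq; congr 2; ring
        · rw [indicator_of_notMem (show a ∉ {a | t < β a} from ha)]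
          exact bot_le
      · exact ENNReal.ofReal_ne_top
    calc _ ≤ ENNReal.ofReal (Real.exp t) * (ENNReal.ofReal (Real.exp (-(t - s))) *
          ∫⁻ z, ({a | s < β a}).indicator (fun z => ENNReal.ofReal (Real.exp (-z))) z) := by
          gcongr
      _ = _ := by
          rw [← mul_assoc, ← ENNReal.ofReal_mul (Real.exp_pos _).le, ← Real.exp_add]
          congr 3; ring
  have hfin : ∀ t, 0 < t → h t ≠ ∞ := by
    intro t _
    exact ENNReal.mul_ne_top ENNReal.ofReal_ne_top (measure_ne_top _ _)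
  have form : ∀ σ : ℝ, 0 < σ → ∫⁻ z, ENNReal.ofReal (dl σ (β z)) ∂expM =
      ENNReal.ofReal (1 / Real.Gamma σ) *
        ∫⁻ t in Ioi (0:ℝ), h t * ENNReal.ofReal (t ^ (σ - 1) * Real.exp (-t)) := by
    intro σ hσ
    have G := Real.Gamma_pos_of_pos hσ
    have e1 : ∫⁻ z, ENNReal.ofReal (dl σ (β z)) ∂expM =
        ENNReal.ofReal (1 / Real.Gamma (σ + 1)) * ∫⁻ z, ENNReal.ofReal (β z ^ σ) ∂expM := by
      rw [← lintegral_const_mul' _ _ ENNReal.ofReal_ne_top]
      refine lintegral_congr (fun z => ?_)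
      rw [← ENNReal.ofReal_mul (by positivity), dl]
      congr 1; ring
    rw [e1, lintegral_rpow_eq_lintegral_meas_lt_mul expM (ae_of_all _ hβ0)
      hmono.measurable.aemeasurable hσ, ← mul_assoc, ← ENNReal.ofReal_mul (by positivity),
      Real.Gamma_add_one hσ.ne']
    congr 1
    · congr 1; field_simp
    · refine setLIntegral_congr_fun measurableSet_Ioi (fun t ht => ?_)
      have ht' : (0:ℝ) < t := ht
      simp only [hh]
      rw [mul_comm (t ^ (σ - 1)) (Real.exp (-t)), ENNReal.ofReal_mul (Real.exp_pos _).le]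
      have : ENNReal.ofReal (Real.exp t) * ENNReal.ofReal (Real.exp (-t)) = 1 := by
        rw [← ENNReal.ofReal_mul (Real.exp_pos _).le, ← Real.exp_add]; simp
      calc expM {a | t < β a} * ENNReal.ofReal (t ^ (σ - 1))
          = (ENNReal.ofReal (Real.exp t) * ENNReal.ofReal (Real.exp (-t))) *
            expM {a | t < β a} * ENNReal.ofReal (t ^ (σ - 1)) := by rw [this, one_mul]
        _ = _ := by ring
  rw [form σ₁ h1, form σ₂ h2]
  exact gamma_cross h2 h12 h hanti hfin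


section oned

variable {E : Type*} [NormedAddCommGroup E] [NormedSpace ℝ E]

/-- Closed convex epigraph-like sets with compact truncations. -/
structure Good (G : Set (E × ℝ)) : Prop where
  convex : Convex ℝ G
  compact : ∀ A : ℝ, IsCompact (G ∩ {p | p.2 ≤ A})
  up : ∀ x a a', (x, a) ∈ G → a ≤ a' → (x, a') ∈ G
  nonneg : ∀ x a, (x, a) ∈ G → 0 ≤ a

/-- Adding a segment in the direction `v` with level function `δ`. -/
def op (G : Set (E × ℝ)) (δ : ℝ → ℝ) (v : E) : Set (E × ℝ) :=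
  {p | ∃ x a s b, (x, a) ∈ G ∧ 0 ≤ b ∧ |s| ≤ δ b ∧ p.1 = x + s • v ∧ p.2 = a + b}

lemma op_convex {G : Set (E × ℝ)} (hG : Good G) {δ : ℝ → ℝ} (hδ : ConcaveOn ℝ (Ici 0) δ) (v : E) :
    Convex ℝ (op G δ v) := by
  rintro ⟨p1, p2⟩ ⟨x, a, s, b, hxa, hb, hs, h1, h2⟩ ⟨q1, q2⟩ ⟨x', a', s', b', hxa', hb', hs', h1', h2'⟩
    α β hα hβ hαβ
  simp only at h1 h2 h1' h2'
  refine ⟨α • x + β • x', α * a + β * a', α * s + β * s', α * b + β * b', ?_, by positivity, ?_, ?_, ?_⟩
  · exact hG.convex hxa hxa' hα hβ hαβ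
  · have := hδ.2 (x := b) hb (y := b') hb' hα hβ hαβ
    simp only [smul_eq_mul] at this
    calc |α * s + β * s'| ≤ |α * s| + |β * s'| := abs_add_le _ _
      _ = α * |s| + β * |s'| := by rw [abs_mul, abs_mul, abs_of_nonneg hα, abs_of_nonneg hβ]
      _ ≤ α * δ b + β * δ b' := by gcongr
      _ ≤ _ := this
  · simp only [Prod.smul_mk, Prod.mk_add_mk, h1, h1', smul_add, add_smul, mul_smul]
    abel
  · simp only [Prod.smul_mk, Prod.mk_add_mk, h2, h2', smul_eq_mul]; ring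

lemma exists_opt {G : Set (ℝ × ℝ)} (hG : Good G) {δ : ℝ → ℝ} (hδc : Continuous δ) {m : ℝ}
    (hm : ∃ x, (x, m) ∈ G) (z : ℝ) (hz : m ≤ z) :
    ∃ x b : ℝ, (x, z - b) ∈ G ∧ 0 ≤ b ∧ ∀ x' b', (x', z - b') ∈ G → 0 ≤ b' →
      (x' + δ b' ≤ x + δ b ∧ (x' + δ b' = x + δ b → b' ≤ b)) := by
  obtain ⟨x₀, hx₀⟩ := hm
  have hne : (G ∩ {p | p.2 ≤ z}).Nonempty := ⟨(x₀, m), hx₀, hz⟩
  have hcont : Continuous (fun p : ℝ × ℝ => p.1 + δ (z - p.2)) := by fun_prop
  obtain ⟨p, hp, hpmax⟩ := (hG.compact z).exists_isMaxOn hne hcont.continuousOn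
  have hA : IsCompact ((G ∩ {p | p.2 ≤ z}) ∩
      {q : ℝ × ℝ | q.1 + δ (z - q.2) = p.1 + δ (z - p.2)}) :=
    (hG.compact z).inter_right (isClosed_eq hcont continuous_const)
  obtain ⟨q, hq, hqmin⟩ := hA.exists_isMinOn ⟨p, hp, rfl⟩
    (continuous_snd.continuousOn (s := (G ∩ {p | p.2 ≤ z}) ∩
      {q : ℝ × ℝ | q.1 + δ (z - q.2) = p.1 + δ (z - p.2)}))
  have hqz : q.2 ≤ z := hq.1.2
  have hqeq : q.1 + δ (z - q.2) = p.1 + δ (z - p.2) := hq.2
  refine ⟨q.1, z - q.2, ?_, by linarith, ?_⟩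
  · have : z - (z - q.2) = q.2 := by ring
    rw [this]; exact hq.1.1
  · intro x' b' hx' hb'
    have hmem : (x', z - b') ∈ G ∩ {p : ℝ × ℝ | p.2 ≤ z} := ⟨hx', by
      show z - b' ≤ z; linarith⟩
    have h1 := hpmax hmem
    simp only [mem_ofPred_eq] at h1
    have h2 : z - (z - b') = b' := by ring
    rw [h2] at h1
    refine ⟨by linarith, ?_⟩
    intro heq
    have h3 : (x', z - b') ∈ (G ∩ {p : ℝ × ℝ | p.2 ≤ z}) ∩
      {q : ℝ × ℝ | q.1 + δ (z - q.2) = p.1 + δ (z - p.2)} := by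
      refine ⟨hmem, ?_⟩
      show x' + δ (z - (z - b')) = p.1 + δ (z - p.2)
      rw [h2]; linarith
    have h4 := hqmin h3
    simp only [mem_ofPred_eq] at h4
    linarith

lemma right_end {G : Set (ℝ × ℝ)} (hG : Good G) {δ : ℝ → ℝ} (hδc : Continuous δ)
    (hδ : ConcaveOn ℝ (Ici 0) δ) {m : ℝ}
    (hm : ∃ x, (x, m) ∈ G) (hmin : ∀ x a, (x, a) ∈ G → m ≤ a) :
    ∃ t b : ℝ → ℝ, (∀ z, m ≤ z → (t z, z - b z) ∈ G ∧ 0 ≤ b z ∧
        ∀ x a b', (x, a) ∈ G → 0 ≤ b' → a + b' = z → x + δ b' ≤ t z + δ (b z)) ∧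
      Monotone b ∧ (∀ x y, x ≤ y → b y - b x ≤ y - x) ∧ (∀ z ≤ m, b z = 0) := by
  classical
  choose! t b hb using exists_opt hG hδc hm
  have hb0 : b m = 0 := by
    obtain ⟨h1, h2, h3⟩ := hb m le_rfl
    have := hmin _ _ h1
    linarith
  -- the two exchange arguments
  have mono : ∀ z z', m ≤ z → z ≤ z' → b z ≤ b z' := by
    intro z z' hz hzz
    by_contra hcon
    have hlt : b z' < b z := not_le.1 hcon
    obtain ⟨h1, h2, h3⟩ := hb z hz
    obtain ⟨h1', h2', h3'⟩ := hb z' (hz.trans hzz)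
    set L := (z' - z) + (b z - b z') with hL
    have hLpos : 0 < L := by linarith
    set l := (b z - b z') / L with hl
    have hl0 : 0 ≤ l := div_nonneg (by linarith) hLpos.le
    have hl1 : l ≤ 1 := by rw [hl, div_le_one hLpos]; linarith
    have hlL : l * L = b z - b z' := by rw [hl]; field_simp
    have c1 := hG.convex h1 h1' (a := 1 - l) (b := l) (by linarith) hl0 (by ring)
    have c2 := hG.convex h1 h1' (a := l) (b := 1 - l) hl0 (by linarith) (by ring)
    simp only [Prod.smul_mk, Prod.mk_add_mk, smul_eq_mul] at c1 c2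
    have e1 : (1 - l) * (z - b z) + l * (z' - b z') = z - b z' := by
      have : (1 - l) * (z - b z) + l * (z' - b z') = (z - b z) + l * L := by rw [hL]; ring
      rw [this, hlL]; ring
    have e2 : l * (z - b z) + (1 - l) * (z' - b z') = z' - b z := by
      have : l * (z - b z) + (1 - l) * (z' - b z') = (z' - b z') - l * L := by rw [hL]; ring
      rw [this, hlL]; ring
    rw [e1] at c1
    rw [e2] at c2
    have i1 := (h3 _ _ c1 h2').1
    have i2 := (h3' _ _ c2 h2)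
    have i3 : l * t z + (1 - l) * t z' + δ (b z) = t z' + δ (b z') := by
      apply le_antisymm i2.1
      linarith
    have := i2.2 i3
    linarith
  have lip : ∀ z z', m ≤ z → z ≤ z' → b z' - b z ≤ z' - z := by
    intro z z' hz hzz
    by_contra hcon
    have hlt : b z + (z' - z) < b z' := by linarith [not_le.1 hcon]
    obtain ⟨h1, h2, h3⟩ := hb z hz
    obtain ⟨h1', h2', h3'⟩ := hb z' (hz.trans hzz)
    set D := z' - z with hD
    have hD0 : 0 ≤ D := by linarith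
    have e1 : z - (b z' - D) = z' - b z' := by rw [hD]; ring
    have e2 : z' - (b z + D) = z - b z := by rw [hD]; ring
    have i1 := h3 (t z') (b z' - D) (by rw [e1]; exact h1') (by linarith)
    have i1' : t z' + δ (b z' - D) < t z + δ (b z) := by
      refine lt_of_le_of_ne i1.1 (fun h => ?_)
      have := i1.2 h
      linarith
    have i2 := (h3' (t z) (b z + D) (by rw [e2]; exact h1) (by linarith)).1
    -- concavity
    have hbb : 0 < b z' - b z := by linarith
    set θ := D / (b z' - b z) with hθ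
    have hθ0 : 0 ≤ θ := div_nonneg hD0 hbb.le
    have hθ1 : θ ≤ 1 := by rw [hθ, div_le_one hbb]; linarith
    have hθD : θ * (b z' - b z) = D := by rw [hθ]; field_simp
    have j1 := hδ.2 h2 h2' (by linarith : (0:ℝ) ≤ 1 - θ) hθ0 (by ring)
    have j2 := hδ.2 h2 h2' hθ0 (by linarith : (0:ℝ) ≤ 1 - θ) (by ring)
    simp only [smul_eq_mul] at j1 j2
    have k1 : (1 - θ) * b z + θ * b z' = b z + D := by
      have : (1 - θ) * b z + θ * b z' = b z + θ * (b z' - b z) := by ring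
      rw [this, hθD]
    have k2 : θ * b z + (1 - θ) * b z' = b z' - D := by
      have : θ * b z + (1 - θ) * b z' = b z' - θ * (b z' - b z) := by ring
      rw [this, hθD]
    rw [k1] at j1
    rw [k2] at j2
    linarith
  refine ⟨t, fun z => if m ≤ z then b z else 0, ?_, ?_, ?_, ?_⟩
  · intro z hz
    obtain ⟨h1, h2, h3⟩ := hb z hz
    simp only [hz, if_true]
    refine ⟨h1, h2, ?_⟩
    intro x a b' hx hb' hab
    have : z - b' = a := by linarith
    exact (h3 x b' (by rw [this]; exact hx) hb').1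
  · intro x y hxy
    by_cases hx : m ≤ x
    · have hy : m ≤ y := hx.trans hxy
      simp only [hx, hy, if_true]
      exact mono x y hx hxy
    · simp only [hx, if_false]
      by_cases hy : m ≤ y
      · simp only [hy, if_true]; exact (hb y hy).2.1
      · simp only [hy, if_false]; exact le_rfl
  · intro x y hxy
    by_cases hx : m ≤ x
    · have hy : m ≤ y := hx.trans hxy
      simp only [hx, hy, if_true]
      exact lip x y hx hxy
    · simp only [hx, if_false]
      by_cases hy : m ≤ y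
      · simp only [hy, if_true]
        have := lip m y le_rfl hy
        rw [hb0] at this
        linarith
      · simp only [hy, if_false]; linarith
  · intro z hz
    rcases eq_or_lt_of_le hz with rfl | hlt
    · simp [hb0]
    · simp [not_le.2 hlt]

end oned

section oned2

lemma dl_continuous {σ : ℝ} (hσ : 0 < σ) : Continuous (dl σ) := by
  unfold dl
  exact (Real.continuous_rpow_const hσ.le).div_const _

lemma dl_concave {σ : ℝ} (hσ : 0 < σ) (h1 : σ ≤ 1) : ConcaveOn ℝ (Ici 0) (dl σ) := by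
  have h := (Real.concaveOn_rpow hσ.le h1).smul (c := 1 / Real.Gamma (σ + 1))
    (by have := Real.Gamma_pos_of_pos (show 0 < σ + 1 by linarith); positivity)
  refine h.congr ?_
  intro x _
  simp only [dl, smul_eq_mul]; ring

lemma dl_zero {σ : ℝ} (hσ : 0 < σ) : dl σ 0 = 0 := by
  simp [dl, Real.zero_rpow hσ.ne']

lemma dl_nonneg {σ : ℝ} (hσ : 0 < σ) {b : ℝ} (hb : 0 ≤ b) : 0 ≤ dl σ b := by
  have := Real.Gamma_pos_of_pos (show 0 < σ + 1 by linarith)
  unfold dl; positivity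

lemma dl_mono {σ : ℝ} (hσ : 0 < σ) {a b : ℝ} (ha : 0 ≤ a) (hab : a ≤ b) : dl σ a ≤ dl σ b := by
  have := Real.Gamma_pos_of_pos (show 0 < σ + 1 by linarith)
  unfold dl
  gcongr

lemma expM_ae : ∀ᵐ z ∂expM, 0 < z := by
  have : expM ≪ volume.restrict (Ioi (0:ℝ)) := withDensity_absolutelyContinuous _ _
  exact this.ae_le (ae_restrict_mem measurableSet_Ioi)

lemma lintegral_expM {f : ℝ → ℝ≥0∞} (hf : Measurable f) :
    ∫⁻ z, f z ∂expM = ∫⁻ z in Ioi (0:ℝ), f z * ENNReal.ofReal (Real.exp (-z)) := by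
  rw [expM, lintegral_withDensity_eq_lintegral_mul _ (by fun_prop) hf]
  refine lintegral_congr (fun z => ?_)
  simp [mul_comm]

lemma lintegral_dl {σ : ℝ} (hσ : 0 < σ) : ∫⁻ z, ENNReal.ofReal (dl σ z) ∂expM = 1 := by
  have G := Real.Gamma_pos_of_pos (show 0 < σ + 1 by linarith)
  rw [lintegral_expM (dl_continuous hσ).measurable.ennreal_ofReal]
  have : ∀ z ∈ Ioi (0:ℝ), ENNReal.ofReal (dl σ z) * ENNReal.ofReal (Real.exp (-z)) =
      ENNReal.ofReal (1 / Real.Gamma (σ + 1)) *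
        ENNReal.ofReal (z ^ ((σ + 1) - 1) * Real.exp (-z)) := by
    intro z hz
    have hz' : (0:ℝ) < z := hz
    rw [← ENNReal.ofReal_mul (dl_nonneg hσ hz'.le), ← ENNReal.ofReal_mul (by positivity)]
    congr 1
    rw [dl, add_sub_cancel_right]; ring
  rw [setLIntegral_congr_fun measurableSet_Ioi this, lintegral_const_mul' _ _ ENNReal.ofReal_ne_top,
    lintegral_gamma (by linarith), ← ENNReal.ofReal_mul (by positivity), one_div,
    inv_mul_cancel₀ G.ne', ENNReal.ofReal_one]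

lemma beta_fin {σ : ℝ} (hσ : 0 < σ) (β : ℝ → ℝ) (hmono : Monotone β)
    (hlip : ∀ x y, x ≤ y → β y - β x ≤ y - x) (h0 : ∀ x ≤ 0, β x = 0) :
    ∫⁻ z, ENNReal.ofReal (dl σ (β z)) ∂expM ≠ ∞ := by
  have : ∫⁻ z, ENNReal.ofReal (dl σ (β z)) ∂expM ≤ ∫⁻ z, ENNReal.ofReal (dl σ z) ∂expM := by
    refine lintegral_mono_ae (expM_ae.mono (fun z hz => ?_))
    apply ENNReal.ofReal_le_ofReal
    have h1 := hlip 0 z hz.le
    rw [h0 0 le_rfl] at h1
    have h2 := hmono hz.le
    rw [h0 0 le_rfl] at h2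
    exact dl_mono hσ h2 (by linarith)
  exact ne_top_of_le_ne_top (by rw [lintegral_dl hσ]; exact ENNReal.one_ne_top) this

lemma Good.neg {G : Set (ℝ × ℝ)} (hG : Good G) : Good {p : ℝ × ℝ | (-p.1, p.2) ∈ G} := by
  have e : ∀ p : ℝ × ℝ, (-p.1, p.2) = (fun q : ℝ × ℝ => (-q.1, q.2)) p := fun _ => rfl
  constructor
  · intro p hp q hq a b ha hb hab
    have := hG.convex hp hq ha hb hab
    have e : a • (-p.1, p.2) + b • (-q.1, q.2) = (-(a • p + b • q).1, (a • p + b • q).2) := by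
      ext
      · simp only [Prod.smul_mk, Prod.mk_add_mk, smul_eq_mul, Prod.fst_add, Prod.smul_fst]; ring
      · simp only [Prod.smul_mk, Prod.mk_add_mk, smul_eq_mul, Prod.snd_add, Prod.smul_snd]
    show (-(a • p + b • q).1, (a • p + b • q).2) ∈ G
    rw [← e]; exact this
  · intro A
    have h := (hG.compact A).image (f := fun q : ℝ × ℝ => (-q.1, q.2)) (by fun_prop)
    convert h using 1
    ext p
    constructor
    · rintro ⟨h1, h2⟩
      exact ⟨(-p.1, p.2), ⟨h1, h2⟩, by simp⟩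
    · rintro ⟨q, ⟨h1, h2⟩, rfl⟩
      refine ⟨?_, h2⟩
      show (- -q.1, q.2) ∈ G
      rw [neg_neg]; exact h1
  · intro x a a' h1 h2
    exact hG.up _ _ _ h1 h2
  · intro x a h1
    exact hG.nonneg _ _ h1

lemma oneD {σ₁ σ₂ : ℝ} (h2 : 0 < σ₂) (h12 : σ₂ ≤ σ₁) (h1 : σ₁ ≤ 1) (G : Set (ℝ × ℝ))
    (hG : Good G) :
    ∫⁻ z, volume {s | (s, z) ∈ op G (dl σ₁) 1} ∂expM ≤
      ∫⁻ z, volume {s | (s, z) ∈ op G (dl σ₂) 1} ∂expM := by
  have h1' : 0 < σ₁ := lt_of_lt_of_le h2 h12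
  rcases G.eq_empty_or_nonempty with rfl | ⟨⟨x₀, a₀⟩, h₀⟩
  · have : ∀ z : ℝ, {s : ℝ | (s, z) ∈ op (∅ : Set (ℝ × ℝ)) (dl σ₁) 1} = ∅ := by
      intro z
      ext s
      simp [op]
    simp [this]
  -- the minimal level
  obtain ⟨m, ⟨xm, hxm⟩, hmin⟩ : ∃ m, (∃ x, (x, m) ∈ G) ∧ ∀ x a, (x, a) ∈ G → m ≤ a := by
    obtain ⟨p, hp, hpmin⟩ := (hG.compact a₀).exists_isMinOn
      ⟨(x₀, a₀), h₀, (le_refl a₀ : a₀ ≤ a₀)⟩
      (continuous_snd.continuousOn (s := G ∩ {p | p.2 ≤ a₀}))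
    refine ⟨p.2, ⟨p.1, hp.1⟩, ?_⟩
    intro x a hxa
    rcases le_total a a₀ with h | h
    · exact hpmin (show (x, a) ∈ G ∩ {p | p.2 ≤ a₀} from ⟨hxa, h⟩)
    · exact le_trans hp.2 h
  have hm0 : 0 ≤ m := hG.nonneg _ _ hxm
  obtain ⟨tR, bR, hR, bRm, bRl, bR0⟩ := right_end hG (dl_continuous h1') (dl_concave h1' h1)
    ⟨xm, hxm⟩ hmin
  obtain ⟨tL, bL, hL, bLm, bLl, bL0⟩ := right_end hG.neg (dl_continuous h1') (dl_concave h1' h1)
    (m := m) ⟨-xm, by simpa using hxm⟩ (fun x a h => hmin _ _ h)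
  have bR0' : ∀ x ≤ 0, bR x = 0 := fun x hx => bR0 x (hx.trans hm0)
  have bL0' : ∀ x ≤ 0, bL x = 0 := fun x hx => bL0 x (hx.trans hm0)
  have meas : ∀ (σ : ℝ), 0 < σ → ∀ b : ℝ → ℝ, Monotone b →
      Measurable (fun z => ENNReal.ofReal (dl σ (b z))) := fun σ hσ b hb =>
    ((dl_continuous hσ).measurable.comp hb.measurable).ennreal_ofReal
  have pt : ∀ z, volume {s | (s, z) ∈ op G (dl σ₁) 1} +
      (ENNReal.ofReal (dl σ₂ (bR z)) + ENNReal.ofReal (dl σ₂ (bL z))) ≤
      volume {s | (s, z) ∈ op G (dl σ₂) 1} +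
      (ENNReal.ofReal (dl σ₁ (bR z)) + ENNReal.ofReal (dl σ₁ (bL z))) := by
    intro z
    rcases lt_or_ge z m with hz | hz
    · have e : {s : ℝ | (s, z) ∈ op G (dl σ₁) 1} = ∅ := by
        rw [eq_empty_iff_forall_notMem]
        rintro s ⟨x, a, s', b, hxa, hb, -, -, hz'⟩
        have := hmin _ _ hxa
        simp only at hz'
        linarith
      rw [e, bR0 z hz.le, bL0 z hz.le, dl_zero h2]
      simp
    · obtain ⟨R1, R2, R3⟩ := hR z hz
      obtain ⟨L1, L2, L3⟩ := hL z hz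
      have L1' : (-tL z, z - bL z) ∈ G := L1
      -- upper bound for the first
      have hsub : {s : ℝ | (s, z) ∈ op G (dl σ₁) 1} ⊆
          Icc (-(tL z + dl σ₁ (bL z))) (tR z + dl σ₁ (bR z)) := by
        rintro s ⟨x, a, s', b, hxa, hb, hs', hs, hz'⟩
        simp only [smul_eq_mul, mul_one] at hs hz'
        have i1 := R3 x a b hxa hb hz'.symm
        have i2 := L3 (-x) a b (by show (- -x, a) ∈ G; rw [neg_neg]; exact hxa) hb hz'.symm
        have := abs_le.1 hs'
        constructor <;> linarith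
      have hub := (measure_mono hsub).trans (by rw [Real.volume_Icc])
      -- lower bound for the second
      have conv := op_convex hG (dl_concave h2 (h12.trans h1)) (1:ℝ)
      have pR : (tR z + dl σ₂ (bR z), z) ∈ op G (dl σ₂) 1 :=
        ⟨tR z, z - bR z, dl σ₂ (bR z), bR z, R1, R2, by rw [abs_of_nonneg (dl_nonneg h2 R2)],
          by simp, by simp⟩
      have pL : (-(tL z + dl σ₂ (bL z)), z) ∈ op G (dl σ₂) 1 :=
        ⟨-tL z, z - bL z, -dl σ₂ (bL z), bL z, L1', L2,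
          by rw [abs_neg, abs_of_nonneg (dl_nonneg h2 L2)], by simp; ring, by simp⟩
      have hsup : Icc (-(tL z + dl σ₂ (bL z))) (tR z + dl σ₂ (bR z)) ⊆
          {s : ℝ | (s, z) ∈ op G (dl σ₂) 1} := by
        intro s hs
        have hseg : s ∈ segment ℝ (-(tL z + dl σ₂ (bL z))) (tR z + dl σ₂ (bR z)) := by
          rw [segment_eq_Icc (hs.1.trans hs.2)]; exact hs
        obtain ⟨α, β, hα, hβ, hαβ, rfl⟩ := hseg
        have := conv pL pR hα hβ hαβ
        simp only [Prod.smul_mk, Prod.mk_add_mk] at this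
        have ez : α • z + β • z = z := by rw [← add_smul, hαβ, one_smul]
        rw [ez] at this
        exact this
      have hlb : ENNReal.ofReal ((tR z + dl σ₂ (bR z)) - (-(tL z + dl σ₂ (bL z)))) ≤
          volume {s | (s, z) ∈ op G (dl σ₂) 1} := by
        rw [← Real.volume_Icc]; exact measure_mono hsup
      -- nonnegativity of the length
      have hlen : 0 ≤ (tR z + dl σ₁ (bR z)) - (-(tL z + dl σ₁ (bL z))) := by
        have i1 := R3 (-tL z) (z - bL z) (bL z) L1' L2 (by ring)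
        have := dl_nonneg h1' L2
        linarith
      have n1 := dl_nonneg h1' R2
      have n2 := dl_nonneg h1' L2
      have n3 := dl_nonneg h2 R2
      have n4 := dl_nonneg h2 L2
      calc _ ≤ ENNReal.ofReal ((tR z + dl σ₁ (bR z)) - (-(tL z + dl σ₁ (bL z)))) +
            (ENNReal.ofReal (dl σ₂ (bR z)) + ENNReal.ofReal (dl σ₂ (bL z))) := by gcongr
        _ = ENNReal.ofReal (((tR z + dl σ₂ (bR z)) - (-(tL z + dl σ₂ (bL z)))) +
            (dl σ₁ (bR z) + dl σ₁ (bL z))) := by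
            rw [← ENNReal.ofReal_add n3 n4, ← ENNReal.ofReal_add hlen (by positivity)]
            congr 1; ring
        _ ≤ ENNReal.ofReal ((tR z + dl σ₂ (bR z)) - (-(tL z + dl σ₂ (bL z)))) +
            ENNReal.ofReal (dl σ₁ (bR z) + dl σ₁ (bL z)) := ENNReal.ofReal_add_le
        _ ≤ _ := by
            rw [ENNReal.ofReal_add n1 n2]
            gcongr
  have hint := lintegral_mono (μ := expM) pt
  have m2 : Measurable (fun z => ENNReal.ofReal (dl σ₂ (bR z)) + ENNReal.ofReal (dl σ₂ (bL z))) :=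
    (meas σ₂ h2 bR bRm).add (meas σ₂ h2 bL bLm)
  have m1 : Measurable (fun z => ENNReal.ofReal (dl σ₁ (bR z)) + ENNReal.ofReal (dl σ₁ (bL z))) :=
    (meas σ₁ h1' bR bRm).add (meas σ₁ h1' bL bLm)
  rw [lintegral_add_right _ m2, lintegral_add_right _ m1,
    lintegral_add_right _ (meas σ₂ h2 bL bLm), lintegral_add_right _ (meas σ₁ h1' bL bLm)] at hint
  have kR := beta_cross h2 h12 bR bRm bRl bR0'
  have kL := beta_cross h2 h12 bL bLm bLl bL0'
  have fR := beta_fin h2 bR bRm bRl bR0'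
  have fL := beta_fin h2 bL bLm bLl bL0'
  have hfin : ∫⁻ z, ENNReal.ofReal (dl σ₂ (bR z)) ∂expM +
      ∫⁻ z, ENNReal.ofReal (dl σ₂ (bL z)) ∂expM ≠ ∞ := ENNReal.add_ne_top.2 ⟨fR, fL⟩
  refine (ENNReal.add_le_add_iff_right hfin).1 (hint.trans ?_)
  gcongr

end oned2

section elevel

variable {E : Type*} [NormedAddCommGroup E] [NormedSpace ℝ E]

lemma Good.isClosed {G : Set (E × ℝ)} (hG : Good G) : IsClosed G := by
  rw [← closure_subset_iff_isClosed]
  intro p hp
  have h1 : p ∈ closure (G ∩ {q | q.2 ≤ p.2 + 1}) := by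
    rw [mem_closure_iff_nhds] at hp ⊢
    intro t ht
    have hopen : {q : E × ℝ | q.2 < p.2 + 1} ∈ 𝓝 p :=
      (isOpen_lt continuous_snd continuous_const).mem_nhds (show p.2 < p.2 + 1 by linarith)
    obtain ⟨q, ⟨hq1, hq2⟩, hq3⟩ := hp _ (inter_mem ht hopen)
    exact ⟨q, hq1, hq3, (le_of_lt (show q.2 < p.2 + 1 from hq2) : q.2 ≤ p.2 + 1)⟩
  rw [(hG.compact _).isClosed.closure_eq] at h1
  exact h1.1

lemma op_good {G : Set (E × ℝ)} (hG : Good G) {δ : ℝ → ℝ} (hδ : ConcaveOn ℝ (Ici 0) δ)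
    (hδc : Continuous δ) (hδm : ∀ a b, 0 ≤ a → a ≤ b → δ a ≤ δ b) (v : E) : Good (op G δ v) := by
  constructor
  · exact op_convex hG hδ v
  · intro A
    -- compact parameter set
    have hK : IsCompact (((G ∩ {p | p.2 ≤ A}) ×ˢ (Icc (-δ A) (δ A) ×ˢ Icc (0:ℝ) A)) ∩
        {q : (E × ℝ) × (ℝ × ℝ) | |q.2.1| ≤ δ q.2.2 ∧ q.1.2 + q.2.2 ≤ A}) := by
      apply IsCompact.inter_right
      · exact (hG.compact A).prod (isCompact_Icc.prod isCompact_Icc)
      · have c1 : IsClosed {q : (E × ℝ) × (ℝ × ℝ) | |q.2.1| ≤ δ q.2.2} :=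
          isClosed_le (by fun_prop) (by fun_prop)
        have c2 : IsClosed {q : (E × ℝ) × (ℝ × ℝ) | q.1.2 + q.2.2 ≤ A} :=
          isClosed_le (by fun_prop) (by fun_prop)
        exact c1.inter c2
    have h := hK.image (f := fun q : (E × ℝ) × (ℝ × ℝ) => (q.1.1 + q.2.1 • v, q.1.2 + q.2.2))
      (by fun_prop)
    convert h using 1
    ext ⟨p1, p2⟩
    constructor
    · rintro ⟨⟨x, a, s, b, hxa, hb, hs, h1, h2⟩, hA⟩
      simp only at h1 h2
      have hA' : p2 ≤ A := hA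
      have ha := hG.nonneg _ _ hxa
      have hδb : δ b ≤ δ A := hδm _ _ hb (by linarith)
      refine ⟨((x, a), (s, b)), ⟨⟨⟨hxa, ?_⟩, ?_, ?_⟩, hs, ?_⟩, ?_⟩
      · show a ≤ A; linarith
      · have := abs_le.1 (hs.trans hδb)
        exact this
      · exact ⟨hb, by simp only; linarith⟩
      · simp only; linarith
      · simp only [h1, h2]
    · rintro ⟨⟨⟨x, a⟩, ⟨s, b⟩⟩, ⟨⟨⟨hxa, _⟩, _, hb⟩, hs, hab⟩, heq⟩
      simp only [Prod.mk.injEq] at heq hs hab
      refine ⟨⟨x, a, s, b, hxa, hb.1, hs, heq.1.symm, heq.2.symm⟩, ?_⟩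
      show p2 ≤ A
      rw [← heq.2]; exact hab
  · rintro p1 p2 p2' ⟨x, a, s, b, hxa, hb, hs, h1, h2⟩ hle
    simp only at h1 h2
    exact ⟨x, a + (p2' - p2), s, b, hG.up _ _ _ hxa (by linarith), hb, hs, h1, by simp only; linarith⟩
  · rintro p1 p2 ⟨x, a, s, b, hxa, hb, hs, h1, h2⟩
    have := hG.nonneg _ _ hxa
    simp only at h2
    linarith

lemma Good.slice {G : Set (E × ℝ)} (hG : Good G) (x : E) {v : E} (hv : v ≠ 0) :
    Good {p : ℝ × ℝ | (x + p.1 • v, p.2) ∈ G} := by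
  constructor
  · intro p hp q hq a b ha hb hab
    have := hG.convex hp hq ha hb hab
    have e : a • (x + p.1 • v, p.2) + b • (x + q.1 • v, q.2) =
        (x + (a • p + b • q).1 • v, (a • p + b • q).2) := by
      ext
      · simp only [Prod.smul_mk, Prod.mk_add_mk, Prod.fst_add, Prod.smul_fst, smul_eq_mul,
          smul_add, add_smul, mul_smul]
        have : x = a • x + b • x := by rw [← add_smul, hab, one_smul]
        nth_rewrite 3 [this]
        abel
      · simp only [Prod.smul_mk, Prod.mk_add_mk, Prod.snd_add, Prod.smul_snd]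
    show (x + (a • p + b • q).1 • v, (a • p + b • q).2) ∈ G
    rw [← e]; exact this
  · intro A
    have hemb : Topology.IsClosedEmbedding (fun p : ℝ × ℝ => (x + p.1 • v, p.2)) := by
      have h1 : Topology.IsClosedEmbedding (fun s : ℝ => x + s • v) :=
        (Homeomorph.addLeft x).isClosedEmbedding.comp
          (isClosedEmbedding_smul_left hv)
      exact h1.prodMap Topology.IsClosedEmbedding.id
    exact hemb.isCompact_preimage (hG.compact A)
  · intro s a a' h1 h2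
    exact hG.up _ _ _ h1 h2
  · intro s a h1
    exact hG.nonneg _ _ h1

lemma op_slice (G : Set (E × ℝ)) (δ : ℝ → ℝ) (x : E) (v : E) (s z : ℝ) :
    (x + s • v, z) ∈ op G δ v ↔ (s, z) ∈ op {p : ℝ × ℝ | (x + p.1 • v, p.2) ∈ G} δ 1 := by
  constructor
  · rintro ⟨x', a, s', b, hxa, hb, hs', h1, h2⟩
    simp only at h1 h2
    refine ⟨s - s', a, s', b, ?_, hb, hs', by simp, h2⟩
    show (x + (s - s') • v, a) ∈ G
    have : x + (s - s') • v = x' := by
      rw [sub_smul, ← add_sub_assoc, h1]; abel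
    rw [this]; exact hxa
  · rintro ⟨t, a, s', b, hta, hb, hs', h1, h2⟩
    simp only [smul_eq_mul, mul_one] at h1 h2
    refine ⟨x + t • v, a, s', b, hta, hb, hs', ?_, h2⟩
    simp only [h1, add_smul, add_assoc]

lemma dl_facts {σ : ℝ} (hσ : 0 < σ) (h1 : σ ≤ 1) : ConcaveOn ℝ (Ici 0) (dl σ) ∧ Continuous (dl σ) ∧
    ∀ a b, 0 ≤ a → a ≤ b → dl σ a ≤ dl σ b :=
  ⟨dl_concave hσ h1, dl_continuous hσ, fun _ _ ha hab => dl_mono hσ ha hab⟩

variable [FiniteDimensional ℝ E] [MeasurableSpace E] [BorelSpace E]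

lemma elevel {σ₁ σ₂ : ℝ} (h2 : 0 < σ₂) (h12 : σ₂ ≤ σ₁) (h1 : σ₁ ≤ 1) (μ : Measure E)
    [μ.IsAddHaarMeasure] (G : Set (E × ℝ)) (hG : Good G) (v : E) :
    ∫⁻ z, μ {x | (x, z) ∈ op G (dl σ₁) v} ∂expM ≤
      ∫⁻ z, μ {x | (x, z) ∈ op G (dl σ₂) v} ∂expM := by
  have h1' : 0 < σ₁ := lt_of_lt_of_le h2 h12
  by_cases hv : v = 0
  · subst hv
    refine lintegral_mono (fun z => measure_mono ?_)
    rintro x ⟨x', a, s, b, hxa, hb, hs, h3, h4⟩
    simp only [smul_zero, add_zero] at h3 h4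
    exact ⟨x', a, 0, b, hxa, hb, by simpa using dl_nonneg h2 hb, by simpa using h3, h4⟩
  obtain ⟨E', hE'⟩ := Submodule.exists_isCompl (ℝ ∙ v)
  let Φ₀ : (E' × ℝ) ≃ₗ[ℝ] E :=
    ((LinearEquiv.refl ℝ E').prodCongr (LinearEquiv.toSpanNonzeroSingleton ℝ E v hv)).trans
      (Submodule.prodEquivOfIsCompl E' (ℝ ∙ v) hE'.symm)
  let Φ : (E' × ℝ) ≃L[ℝ] E := Φ₀.toContinuousLinearEquiv
  have hΦ : ∀ p : E' × ℝ, Φ p = (p.1 : E) + p.2 • v := by
    intro p
    show Φ₀ p = _
    simp [Φ₀, LinearEquiv.toSpanNonzeroSingleton_apply]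
  let ν : Measure E' := Measure.addHaar
  let ρ : Measure E := (ν.prod (volume : Measure ℝ)).map Φ
  have : ρ.IsAddHaarMeasure := Φ.isAddHaarMeasure_map (ν.prod volume)
  have hμ : μ = μ.addHaarScalarFactor ρ • ρ := Measure.isAddLeftInvariant_eq_smul μ ρ
  have hmeasΦ : Measurable Φ := Φ.continuous.measurable
  -- formula
  have key : ∀ σ : ℝ, 0 < σ → σ ≤ 1 → ∫⁻ z, μ {x | (x, z) ∈ op G (dl σ) v} ∂expM =
      (μ.addHaarScalarFactor ρ : ℝ≥0∞) * ∫⁻ x' : E', ∫⁻ z,
        volume {s | (s, z) ∈ op {p : ℝ × ℝ | ((x' : E) + p.1 • v, p.2) ∈ G} (dl σ) 1} ∂expM ∂ν := by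
    intro σ hσ hσ1
    obtain ⟨f1, f2, f3⟩ := dl_facts hσ hσ1
    have hop := op_good hG f1 f2 f3 v
    have hclosed := hop.isClosed
    have hms : ∀ z, MeasurableSet {x | (x, z) ∈ op G (dl σ) v} := fun z =>
      (hclosed.preimage (by fun_prop : Continuous (fun x : E => (x, z)))).measurableSet
    have e1 : ∀ z, μ {x | (x, z) ∈ op G (dl σ) v} = (μ.addHaarScalarFactor ρ : ℝ≥0∞) *
        ∫⁻ x' : E', volume {s : ℝ | ((x' : E) + s • v, z) ∈ op G (dl σ) v} ∂ν := by
      intro z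
      nth_rewrite 1 [hμ]
      rw [Measure.smul_apply, Measure.map_apply hmeasΦ (hms z),
        Measure.prod_apply (hmeasΦ (hms z))]
      rw [ENNReal.smul_def, smul_eq_mul]
      congr 1
    have hcl2 : IsClosed {q : (ℝ × E') × ℝ | ((q.1.2 : E) + q.2 • v, q.1.1) ∈ op G (dl σ) v} :=
      hclosed.preimage (f := fun q : (ℝ × E') × ℝ => ((q.1.2 : E) + q.2 • v, q.1.1)) (by fun_prop)
    have hjm := measurable_measure_prodMk_left (ν := (volume : Measure ℝ)) hcl2.measurableSet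
    calc ∫⁻ z, μ {x | (x, z) ∈ op G (dl σ) v} ∂expM
        = ∫⁻ z, (μ.addHaarScalarFactor ρ : ℝ≥0∞) *
        ∫⁻ x' : E', volume {s : ℝ | ((x' : E) + s • v, z) ∈ op G (dl σ) v} ∂ν ∂expM :=
          lintegral_congr e1
      _ = (μ.addHaarScalarFactor ρ : ℝ≥0∞) * ∫⁻ z,
        ∫⁻ x' : E', volume {s : ℝ | ((x' : E) + s • v, z) ∈ op G (dl σ) v} ∂ν ∂expM :=
          lintegral_const_mul' _ _ ENNReal.coe_ne_top
      _ = (μ.addHaarScalarFactor ρ : ℝ≥0∞) * ∫⁻ x' : E', ∫⁻ z,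
        volume {s : ℝ | ((x' : E) + s • v, z) ∈ op G (dl σ) v} ∂expM ∂ν := by
          congr 1
          rw [lintegral_lintegral_swap]
          exact hjm.aemeasurable
      _ = _ := by
          congr 1
          refine lintegral_congr (fun x' => lintegral_congr (fun z => ?_))
          congr 1
          ext s
          exact op_slice G (dl σ) x' v s z
  rw [key σ₁ h1' h1, key σ₂ h2 (h12.trans h1)]
  refine mul_le_mul_right (lintegral_mono (fun x' => ?_)) _
  exact oneD h2 h12 h1 _ (hG.slice _ hv)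

end elevel

section iter

variable {E : Type*} [NormedAddCommGroup E] [NormedSpace ℝ E]

/-- Repeated application of `op`. -/
def iter (δ : ℝ → ℝ) {ι : Type*} (v : ι → E) (G : Set (E × ℝ)) (l : List ι) : Set (E × ℝ) :=
  l.foldr (fun i G' => op G' δ (v i)) G

lemma op_comm_le (G : Set (E × ℝ)) (δ δ' : ℝ → ℝ) (v v' : E) :
    op (op G δ v) δ' v' ⊆ op (op G δ' v') δ v := by
  rintro ⟨p1, p2⟩ ⟨x, a, s, b, ⟨x', a', s', b', hxa, hb', hs', h1', h2'⟩, hb, hs, h1, h2⟩
  simp only at h1 h2 h1' h2'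
  refine ⟨x' + s • v', a' + b, s', b', ⟨x', a', s, b, hxa, hb, hs, rfl, rfl⟩, hb', hs', ?_, ?_⟩
  · simp only [h1, h1']; abel
  · simp only [h2, h2']; ring

lemma op_comm (G : Set (E × ℝ)) (δ δ' : ℝ → ℝ) (v v' : E) :
    op (op G δ v) δ' v' = op (op G δ' v') δ v :=
  Subset.antisymm (op_comm_le _ _ _ _ _) (op_comm_le _ _ _ _ _)

lemma iter_op (δ : ℝ → ℝ) {ι : Type*} (v : ι → E) (G : Set (E × ℝ)) (δ' : ℝ → ℝ) (w : E)
    (l : List ι) : iter δ v (op G δ' w) l = op (iter δ v G l) δ' w := by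
  induction l with
  | nil => rfl
  | cons i l ih =>
    show op (iter δ v (op G δ' w) l) δ (v i) = op (op (iter δ v G l) δ (v i)) δ' w
    rw [ih, op_comm]

lemma iter_good {σ : ℝ} (hσ : 0 < σ) (h1 : σ ≤ 1) {ι : Type*} (v : ι → E) {G : Set (E × ℝ)}
    (hG : Good G) (l : List ι) : Good (iter (dl σ) v G l) := by
  induction l with
  | nil => exact hG
  | cons i l ih =>
    obtain ⟨f1, f2, f3⟩ := dl_facts hσ h1
    exact op_good ih f1 f2 f3 (v i)

lemma iter_mono [FiniteDimensional ℝ E] [MeasurableSpace E] [BorelSpace E]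
    {σ₁ σ₂ : ℝ} (h2 : 0 < σ₂) (h12 : σ₂ ≤ σ₁) (h1 : σ₁ ≤ 1) (μ : Measure E)
    [μ.IsAddHaarMeasure] {ι : Type*} (v : ι → E) (l : List ι) :
    ∀ (G : Set (E × ℝ)), Good G →
    ∫⁻ z, μ {x | (x, z) ∈ iter (dl σ₁) v G l} ∂expM ≤
      ∫⁻ z, μ {x | (x, z) ∈ iter (dl σ₂) v G l} ∂expM := by
  have h1' : 0 < σ₁ := lt_of_lt_of_le h2 h12
  induction l with
  | nil => intro G _; exact le_rfl
  | cons i l ih =>
    intro G hG
    obtain ⟨f1, f2, f3⟩ := dl_facts h1' h1
    have e1 : iter (dl σ₁) v G (i :: l) = iter (dl σ₁) v (op G (dl σ₁) (v i)) l := by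
      rw [iter_op]; rfl
    have e2 : iter (dl σ₂) v (op G (dl σ₁) (v i)) l = op (iter (dl σ₂) v G l) (dl σ₁) (v i) := by
      rw [iter_op]
    have s1 := ih (op G (dl σ₁) (v i)) (op_good hG f1 f2 f3 (v i))
    rw [← e1, e2] at s1
    refine s1.trans ?_
    exact elevel h2 h12 h1 μ _ (iter_good h2 (h12.trans h1) v hG l) (v i)

/-- The starting epigraph: the origin at all nonnegative levels. -/
def G₀ (E : Type*) [NormedAddCommGroup E] : Set (E × ℝ) := {p | p.1 = 0 ∧ 0 ≤ p.2}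

lemma G₀_good : Good (G₀ E) := by
  constructor
  · rintro ⟨p1, p2⟩ ⟨h1, h2⟩ ⟨q1, q2⟩ ⟨h3, h4⟩ a b ha hb hab
    simp only at h1 h2 h3 h4
    subst h1 h3
    refine ⟨by simp, ?_⟩
    simp only [Prod.smul_mk, Prod.mk_add_mk, smul_eq_mul]
    positivity
  · intro A
    have : G₀ E ∩ {p | p.2 ≤ A} = {(0 : E)} ×ˢ Icc (0:ℝ) A := by
      ext ⟨p1, p2⟩
      constructor
      · rintro ⟨⟨h1, h2⟩, h3⟩
        exact ⟨h1, h2, h3⟩
      · rintro ⟨h1, h2, h3⟩
        exact ⟨⟨h1, h2⟩, h3⟩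
    rw [this]
    exact isCompact_singleton.prod isCompact_Icc
  · rintro x a a' ⟨h1, h2⟩ h3
    exact ⟨h1, le_trans h2 h3⟩
  · rintro x a ⟨h1, h2⟩
    exact h2

lemma mem_iter (δ : ℝ → ℝ) (hδ : 0 ≤ δ 0) {ι : Type*} [DecidableEq ι] (v : ι → E) (l : List ι)
    (hl : l.Nodup) : ∀ (x : E) (z : ℝ), (x, z) ∈ iter δ v (G₀ E) l ↔
      ∃ y b : ι → ℝ, (∀ i, 0 ≤ b i ∧ |y i| ≤ δ (b i)) ∧ x = (l.map (fun i => y i • v i)).sum ∧
        (l.map b).sum ≤ z := by
  induction l with
  | nil =>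
    intro x z
    constructor
    · rintro ⟨h1, h2⟩
      exact ⟨fun _ => 0, fun _ => 0, fun i => ⟨le_rfl, by simpa using hδ⟩, by simpa using h1,
        by simpa using h2⟩
    · rintro ⟨y, b, _, h1, h2⟩
      exact ⟨by simpa using h1, by simpa using h2⟩
  | cons i l ih =>
    have hi : i ∉ l := (List.nodup_cons.1 hl).1
    have ih' := ih (List.nodup_cons.1 hl).2
    intro x z
    constructor
    · rintro ⟨x', a, s, c, hxa, hc, hs, h1, h2⟩
      simp only at h1 h2
      obtain ⟨y, b, hyb, hx', ha⟩ := (ih' x' a).1 hxa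
      refine ⟨Function.update y i s, Function.update b i c, ?_, ?_, ?_⟩
      · intro j
        by_cases hj : j = i
        · subst hj; simp [hc, hs]
        · simp only [Function.update_of_ne hj]; exact hyb j
      · rw [List.map_cons, List.sum_cons, Function.update_self, h1, hx', add_comm]
        congr 2
        refine List.map_congr_left (fun j hj => ?_)
        have : j ≠ i := fun h => hi (h ▸ hj)
        rw [Function.update_of_ne this]
      · rw [List.map_cons, List.sum_cons, Function.update_self]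
        have : List.map (Function.update b i c) l = List.map b l := by
          refine List.map_congr_left (fun j hj => ?_)
          have : j ≠ i := fun h => hi (h ▸ hj)
          rw [Function.update_of_ne this]
        rw [this]; linarith
    · rintro ⟨y, b, hyb, hx, hz⟩
      rw [List.map_cons, List.sum_cons] at hx hz
      refine ⟨(l.map (fun i => y i • v i)).sum, z - b i, y i, b i, ?_, (hyb i).1, (hyb i).2, ?_, ?_⟩
      · exact (ih' _ _).2 ⟨y, b, hyb, rfl, by linarith⟩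
      · simp only [hx]; abel
      · simp only; ring

end iter

section final

variable {E : Type*} [NormedAddCommGroup E] [NormedSpace ℝ E]

lemma iter_eq_smul {n : ℕ} (v : Fin n → E) {p : ℝ} (hp : 1 ≤ p) {z : ℝ} (hz : 0 < z) :
    {x | (x, z) ∈ iter (dl (1 / p)) v (G₀ E) (List.finRange n)} =
      (z ^ (1 / p) / Real.Gamma (1 / p + 1)) •
        {x | ∃ y : Fin n → ℝ, ∑ i, |y i| ^ p ≤ 1 ∧ x = ∑ i, y i • v i} := by
  have hp0 : 0 < p := lt_of_lt_of_le one_pos hp
  have hσ : 0 < 1 / p := by positivity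
  have G := Real.Gamma_pos_of_pos (show 0 < 1 / p + 1 by linarith)
  set c := Real.Gamma (1 / p + 1) with hc
  have hr : 0 < z ^ (1 / p) / c := by positivity
  have hzp : (z ^ (1 / p)) ^ p = z := by
    rw [← Real.rpow_mul hz.le, one_div, inv_mul_cancel₀ hp0.ne', Real.rpow_one]
  ext x
  rw [mem_smul_set_iff_inv_smul_mem₀ hr.ne']
  show (x, z) ∈ iter (dl (1 / p)) v (G₀ E) (List.finRange n) ↔ _
  rw [mem_iter (dl (1 / p)) (by rw [dl_zero hσ]) v _ (List.nodup_finRange n)]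
  constructor
  · rintro ⟨y, b, hyb, hx, hz'⟩
    rw [← Fin.sum_univ_def] at hx hz'
    refine ⟨fun i => (z ^ (1 / p) / c)⁻¹ * y i, ?_, ?_⟩
    · have : ∀ i, |(z ^ (1 / p) / c)⁻¹ * y i| ^ p ≤ b i / z := by
        intro i
        obtain ⟨hb, hy⟩ := hyb i
        have h1 : |(z ^ (1 / p) / c)⁻¹ * y i| ≤ b i ^ (1 / p) / z ^ (1 / p) := by
          rw [abs_mul, abs_of_pos (by positivity)]
          unfold dl at hy
          rw [← hc] at hy
          calc (z ^ (1 / p) / c)⁻¹ * |y i| ≤ (z ^ (1 / p) / c)⁻¹ * (b i ^ (1 / p) / c) := by gcongr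
            _ = b i ^ (1 / p) / z ^ (1 / p) := by field_simp
        calc |(z ^ (1 / p) / c)⁻¹ * y i| ^ p ≤ (b i ^ (1 / p) / z ^ (1 / p)) ^ p := by gcongr
          _ = b i / z := by
            rw [Real.div_rpow (by positivity) (by positivity), hzp, ← Real.rpow_mul hb, one_div,
              inv_mul_cancel₀ hp0.ne', Real.rpow_one]
      calc ∑ i, |(z ^ (1 / p) / c)⁻¹ * y i| ^ p ≤ ∑ i, b i / z := Finset.sum_le_sum (fun i _ => this i)
        _ = (∑ i, b i) / z := by rw [Finset.sum_div]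
        _ ≤ 1 := by rw [div_le_one hz]; exact hz'
    · rw [hx, Finset.smul_sum]
      refine Finset.sum_congr rfl (fun i _ => ?_)
      rw [mul_smul]
  · rintro ⟨y, hy, hx⟩
    refine ⟨fun i => (z ^ (1 / p) / c) * y i, fun i => z * |y i| ^ p, ?_, ?_, ?_⟩
    · intro i
      refine ⟨by positivity, ?_⟩
      unfold dl
      rw [← hc, Real.mul_rpow hz.le (by positivity), ← Real.rpow_mul (abs_nonneg _), one_div,
        mul_inv_cancel₀ hp0.ne', Real.rpow_one, abs_mul, abs_of_pos (by positivity)]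
      apply le_of_eq; ring
    · rw [← Fin.sum_univ_def]
      have : x = (z ^ (1 / p) / c) • ∑ i, y i • v i := by
        rw [← hx, smul_smul, mul_inv_cancel₀ hr.ne', one_smul]
      rw [this, Finset.smul_sum]
      refine Finset.sum_congr rfl (fun i _ => ?_)
      simp only [mul_smul]
    · rw [← Fin.sum_univ_def, ← Finset.mul_sum]
      calc z * ∑ i, |y i| ^ p ≤ z * 1 := by gcongr
        _ = z := mul_one z

variable [FiniteDimensional ℝ E] [MeasurableSpace E] [BorelSpace E]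

lemma Q_eq (μ : Measure E) [μ.IsAddHaarMeasure] {n : ℕ} (v : Fin n → E) {p : ℝ} (hp : 1 ≤ p) :
    ∫⁻ z, μ {x | (x, z) ∈ iter (dl (1 / p)) v (G₀ E) (List.finRange n)} ∂expM =
      ENNReal.ofReal (Real.Gamma (Module.finrank ℝ E / p + 1) /
        Real.Gamma (1 / p + 1) ^ Module.finrank ℝ E) *
      μ {x | ∃ y : Fin n → ℝ, ∑ i, |y i| ^ p ≤ 1 ∧ x = ∑ i, y i • v i} := by
  have hp0 : 0 < p := lt_of_lt_of_le one_pos hp
  have hσ : 0 < 1 / p := by positivity
  have G := Real.Gamma_pos_of_pos (show 0 < 1 / p + 1 by linarith)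
  set c := Real.Gamma (1 / p + 1) with hc
  set k := Module.finrank ℝ E with hk
  have hkp : (0:ℝ) ≤ k / p := by positivity
  have e : ∫⁻ z, μ {x | (x, z) ∈ iter (dl (1 / p)) v (G₀ E) (List.finRange n)} ∂expM =
      ∫⁻ z, ENNReal.ofReal (z ^ ((k:ℝ) / p) / c ^ k) *
        μ {x | ∃ y : Fin n → ℝ, ∑ i, |y i| ^ p ≤ 1 ∧ x = ∑ i, y i • v i} ∂expM := by
    refine lintegral_congr_ae (expM_ae.mono (fun z hz => ?_))
    have hz' : 0 < z := hz
    simp only
    rw [iter_eq_smul v hp hz', Measure.addHaar_smul]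
    congr 2
    rw [← hk, abs_of_nonneg (by positivity), div_pow, ← Real.rpow_natCast (z ^ (1 / p)) k,
      ← Real.rpow_mul hz'.le]
    congr 2; ring
  rw [e, lintegral_mul_const]
  · congr 1
    rw [lintegral_expM]
    · have : ∀ z ∈ Ioi (0:ℝ), ENNReal.ofReal (z ^ ((k:ℝ) / p) / c ^ k) *
          ENNReal.ofReal (Real.exp (-z)) = ENNReal.ofReal (1 / c ^ k) *
          ENNReal.ofReal (z ^ (((k:ℝ) / p + 1) - 1) * Real.exp (-z)) := by
        intro z hz
        have hz' : (0:ℝ) < z := hz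
        rw [← ENNReal.ofReal_mul (by positivity), ← ENNReal.ofReal_mul (by positivity)]
        congr 1
        rw [add_sub_cancel_right]; ring
      rw [setLIntegral_congr_fun measurableSet_Ioi this,
        lintegral_const_mul' _ _ ENNReal.ofReal_ne_top, lintegral_gamma (by linarith),
        ← ENNReal.ofReal_mul (by positivity)]
      congr 1; ring
    · exact ((measurable_id.pow_const _).div_const _).ennreal_ofReal
  · exact ((measurable_id.pow_const _).div_const _).ennreal_ofReal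

end final

section main

/-- Volume of the `ℓ_p` ball in `EuclideanSpace`. -/
lemma volume_lpBall {k : ℕ} (hk : 1 ≤ k) {p : ℝ} (hp : 1 ≤ p) :
    volume {x : EuclideanSpace ℝ (Fin k) | ∑ i, |x i| ^ p ≤ 1} =
      ENNReal.ofReal ((2 * Real.Gamma (1 / p + 1)) ^ k / Real.Gamma ((k:ℝ) / p + 1)) := by
  have hp0 : 0 < p := lt_of_lt_of_le one_pos hp
  have : Nonempty (Fin k) := ⟨⟨0, hk⟩⟩
  have h := volume_sum_rpow_le (Fin k) hp 1
  rw [ENNReal.ofReal_one, one_pow, one_mul, Fintype.card_fin] at h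
  rw [← h]
  have hset : {x : Fin k → ℝ | (∑ i, |x i| ^ p) ^ (1 / p) ≤ 1} =
      {x : Fin k → ℝ | ∑ i, |x i| ^ p ≤ 1} := by
    ext x
    show (∑ i, |x i| ^ p) ^ (1 / p) ≤ 1 ↔ ∑ i, |x i| ^ p ≤ 1
    have h0 : 0 ≤ ∑ i, |x i| ^ p := Finset.sum_nonneg (fun i _ => by positivity)
    constructor
    · intro h1
      have h2 : ((∑ i, |x i| ^ p) ^ (1 / p)) ^ p ≤ 1 ^ p :=
        Real.rpow_le_rpow (by positivity) h1 hp0.le
      rwa [← Real.rpow_mul h0, one_div, inv_mul_cancel₀ hp0.ne', Real.rpow_one,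
        Real.one_rpow] at h2
    · intro h1
      exact Real.rpow_le_one h0 h1 (by positivity)
  rw [hset]
  have hmp := EuclideanSpace.volume_preserving_symm_measurableEquiv_toLp (Fin k)
  have hms : MeasurableSet {x : Fin k → ℝ | ∑ i, |x i| ^ p ≤ 1} := by
    apply measurableSet_le _ measurable_const
    fun_prop
  rw [← hmp.measure_preimage hms.nullMeasurableSet]
  rfl

lemma proj_image {n : ℕ} (H : Submodule ℝ (EuclideanSpace ℝ (Fin n))) (p : ℝ) :
    H.orthogonalProjectionOnto '' {x : EuclideanSpace ℝ (Fin n) | ∑ i, |x i| ^ p ≤ 1} =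
      {x : H | ∃ y : Fin n → ℝ, ∑ i, |y i| ^ p ≤ 1 ∧
        x = ∑ i, y i • H.orthogonalProjectionOnto (EuclideanSpace.single i (1:ℝ))} := by
  have key : ∀ y : EuclideanSpace ℝ (Fin n), H.orthogonalProjectionOnto y =
      ∑ i, y i • H.orthogonalProjectionOnto (EuclideanSpace.single i (1:ℝ)) := by
    intro y
    have : y = ∑ i, y i • EuclideanSpace.single i (1:ℝ) := by
      ext j
      simp [Finset.sum_apply, Pi.single_apply]
    conv_lhs => rw [this]
    rw [map_sum]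
    simp only [map_smul]
  ext x
  constructor
  · rintro ⟨y, hy, rfl⟩
    exact ⟨fun i => y i, hy, key y⟩
  · rintro ⟨y, hy, rfl⟩
    refine ⟨WithLp.toLp 2 y, hy, ?_⟩
    rw [key]

theorem main_ennreal (n k : ℕ) (hk : 1 ≤ k) (H : Submodule ℝ (EuclideanSpace ℝ (Fin n)))
    (hH : Module.finrank ℝ H = k) {p q : ℝ} (hp : 1 ≤ p) (hpq : p ≤ q) :
    volume (H.orthogonalProjectionOnto '' {x : EuclideanSpace ℝ (Fin n) | ∑ i, |x i| ^ p ≤ 1}) /
        volume {x : EuclideanSpace ℝ (Fin k) | ∑ i, |x i| ^ p ≤ 1} ≤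
      volume (H.orthogonalProjectionOnto '' {x : EuclideanSpace ℝ (Fin n) | ∑ i, |x i| ^ q ≤ 1}) /
        volume {x : EuclideanSpace ℝ (Fin k) | ∑ i, |x i| ^ q ≤ 1} := by
  have hq : 1 ≤ q := hp.trans hpq
  have form : ∀ r : ℝ, 1 ≤ r →
      volume (H.orthogonalProjectionOnto '' {x : EuclideanSpace ℝ (Fin n) | ∑ i, |x i| ^ r ≤ 1}) /
        volume {x : EuclideanSpace ℝ (Fin k) | ∑ i, |x i| ^ r ≤ 1} =
      ENNReal.ofReal ((1 / 2) ^ k) *
      ∫⁻ z, volume {x : H | (x, z) ∈ iter (dl (1 / r))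
        (fun i => H.orthogonalProjectionOnto (EuclideanSpace.single i (1:ℝ))) (G₀ H)
          (List.finRange n)} ∂expM := by
    intro r hr
    have hr0 : 0 < r := lt_of_lt_of_le one_pos hr
    have g1 := Real.Gamma_pos_of_pos (show 0 < 1 / r + 1 by positivity)
    have g2 := Real.Gamma_pos_of_pos (show 0 < (k:ℝ) / r + 1 by positivity)
    rw [Q_eq volume _ hr, proj_image, volume_lpBall hk hr, hH, ← mul_assoc,
      ← ENNReal.ofReal_mul (by positivity), div_eq_mul_inv, mul_comm,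
      ← ENNReal.ofReal_inv_of_pos (by positivity)]
    congr 2
    rw [mul_pow]
    field_simp
    rw [← mul_pow]; norm_num
  rw [form p hp, form q hq]
  have hp0 : 0 < p := lt_of_lt_of_le one_pos hp
  refine mul_le_mul_right ?_ _
  exact iter_mono (by positivity) (one_div_le_one_div_of_le hp0 hpq)
    (by rw [div_le_one hp0]; exact hp) volume _ _ _ G₀_good

lemma volume_proj_ne_top {n : ℕ} (H : Submodule ℝ (EuclideanSpace ℝ (Fin n))) {p : ℝ}
    (hp : 1 ≤ p) :
    volume (H.orthogonalProjectionOnto '' {x : EuclideanSpace ℝ (Fin n) | ∑ i, |x i| ^ p ≤ 1})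
      ≠ ∞ := by
  have hp0 : 0 < p := lt_of_lt_of_le one_pos hp
  have hsub : H.orthogonalProjectionOnto '' {x : EuclideanSpace ℝ (Fin n) | ∑ i, |x i| ^ p ≤ 1} ⊆
      H.orthogonalProjectionOnto '' ((WithLp.toLp 2) '' (Icc (fun _ : Fin n => (-1:ℝ)) (fun _ => 1))) := by
    rintro _ ⟨x, hx, rfl⟩
    refine ⟨x, ⟨fun i => x i, ?_, rfl⟩, rfl⟩
    have : ∀ i, |x i| ≤ 1 := by
      intro i
      by_contra hcon
      have h1 : 1 < |x i| := not_le.1 hcon
      have h2 : 1 < |x i| ^ p := Real.one_lt_rpow h1 hp0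
      have h3 : |x i| ^ p ≤ ∑ i, |x i| ^ p :=
        Finset.single_le_sum (f := fun i => |x i| ^ p) (fun j _ => by positivity)
          (Finset.mem_univ i)
      have h4 : ∑ i, |x i| ^ p ≤ 1 := hx
      linarith
    exact ⟨fun i => (abs_le.1 (this i)).1, fun i => (abs_le.1 (this i)).2⟩
  have hc : IsCompact (H.orthogonalProjectionOnto '' ((WithLp.toLp 2) ''
      (Icc (fun _ : Fin n => (-1:ℝ)) (fun _ => 1)))) := by
    apply IsCompact.image
    · exact isCompact_Icc.image (PiLp.continuous_toLp 2 _)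
    · exact H.orthogonalProjectionOnto.continuous
  exact ne_top_of_le_ne_top hc.measure_lt_top.ne (measure_mono hsub)

theorem main_real (n k : ℕ) (hk : 1 ≤ k) (H : Submodule ℝ (EuclideanSpace ℝ (Fin n)))
    (hH : Module.finrank ℝ H = k) :
    MonotoneOn (fun p : ℝ =>
      (volume (H.orthogonalProjectionOnto ''
        {x : EuclideanSpace ℝ (Fin n) | ∑ i, |x i| ^ p ≤ 1})).toReal /
      (volume {x : EuclideanSpace ℝ (Fin k) | ∑ i, |x i| ^ p ≤ 1}).toReal) (Ici 1) := by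
  intro p hp q hq hpq
  simp only
  have h := main_ennreal n k hk H hH hp hpq
  rw [← ENNReal.toReal_div, ← ENNReal.toReal_div]
  refine ENNReal.toReal_mono ?_ h
  refine ENNReal.div_ne_top (volume_proj_ne_top H hq) ?_
  have hq' : (1:ℝ) ≤ q := hq
  have hq0 : 0 < q := lt_of_lt_of_le one_pos hq'
  have g1 := Real.Gamma_pos_of_pos (show 0 < 1 / q + 1 by positivity)
  have g2 := Real.Gamma_pos_of_pos (show 0 < (k:ℝ) / q + 1 by positivity)
  rw [volume_lpBall hk hq]
  simp only [ne_eq, ENNReal.ofReal_eq_zero, not_le]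
  positivity

end main

end Pool.Agent.Helper39.LpProj
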